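import Pool.Agent.Helper62.KRK.Defs

/-!
# Bitsets of abstract positions

A set of abstract positions `(x, y, a, b, c, d)` is coded by a natural number; the membership of
a position is the bit with index `ix Y0 x y a b c d`.
-/

namespace Pool.Agent.Helper62.KRK

/-- `tab w F r` is the table whose `v`-th block (of width `w`) is `F v`, for `v < r`. -/
noncomputable def tab (w : ℕ) (F : ℕ → ℕ) (r : ℕ) : ℕ :=
  Nat.rec 0 (fun v acc => acc ||| (F v <<< (v * w))) r

theorem tab_zero (w : ℕ) (F : ℕ → ℕ) : tab w F 0 = 0 := rfl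

theorem tab_succ (w : ℕ) (F : ℕ → ℕ) (r : ℕ) :
    tab w F (r + 1) = tab w F r ||| (F r <<< (r * w)) := rfl

theorem tab_lt {w : ℕ} {F : ℕ → ℕ} {r : ℕ} (hF : ∀ v, v < r → F v < 2 ^ w) :
    tab w F r < 2 ^ (r * w) := by
  induction r with
  | zero => simp [tab_zero]
  | succ r ih =>
    rw [tab_succ]
    apply Nat.or_lt_two_pow
    · refine lt_of_lt_of_le (ih (fun v hv => hF v (by omega))) ?_
      apply Nat.pow_le_pow_right (by norm_num)
      exact Nat.mul_le_mul_right _ (by omega)
    · rw [Nat.shiftLeft_eq, Nat.add_mul, one_mul, pow_add, mul_comm]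
      apply Nat.mul_lt_mul_of_pos_left (hF r (by omega))
      positivity

theorem testBit_tab {w : ℕ} {F : ℕ → ℕ} {r : ℕ} (hF : ∀ v, v < r → F v < 2 ^ w)
    (v i : ℕ) (hi : i < w) :
    (tab w F r).testBit (v * w + i) = (decide (v < r) && (F v).testBit i) := by
  induction r with
  | zero => simp [tab_zero]
  | succ r ih =>
    rw [tab_succ, Nat.testBit_or, ih (fun v hv => hF v (by omega)), Nat.testBit_shiftLeft]
    by_cases h1 : v < r
    · have h2 : ¬ (v * w + i ≥ r * w) := by
        have : (v + 1) * w ≤ r * w := Nat.mul_le_mul_right _ h1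
        rw [Nat.add_mul] at this
        omega
      have h3 : v < r + 1 := by omega
      simp [h1, h2, h3]
    · by_cases h2 : v = r
      · subst h2
        simp
      · have h3 : ¬ v < r + 1 := by omega
        have h4 : r * w + w ≤ v * w := by
          have : (r + 1) * w ≤ v * w := Nat.mul_le_mul_right _ (by omega)
          rw [Nat.add_mul] at this
          omega
        have h5 : (F r).testBit (v * w + i - r * w) = false := by
          apply Nat.testBit_lt_two_pow
          refine lt_of_lt_of_le (hF r (by omega)) ?_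
          apply Nat.pow_le_pow_right (by norm_num)
          omega
        simp [h1, h3, h5]

/-- The index of an abstract position. -/
def ix (Y0 x y a b c d : ℕ) : ℕ :=
  x * (Y0 * 6561) + (y * 6561 + (a * 729 + (b * 81 + (c * 9 + (d * 1 + 0)))))

/-- The set with code `S` contains the abstract position. -/
def InS (Y0 S x y a b c d : ℕ) : Prop := S.testBit (ix Y0 x y a b c d) = true

/-- Set difference of bitsets. -/
def sdf (A B : ℕ) : ℕ := A ^^^ (A &&& B)

theorem testBit_sdf (A B i : ℕ) : (sdf A B).testBit i = (A.testBit i && !B.testBit i) := by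
  unfold sdf
  rw [Nat.testBit_xor, Nat.testBit_and]
  cases A.testBit i <;> cases B.testBit i <;> rfl

/-- The code of a set of positions defined by a predicate on the last four coordinates. -/
noncomputable def low (P : ℕ → ℕ → ℕ → ℕ → Bool) : ℕ :=
  tab 729 (fun a => tab 81 (fun b => tab 9 (fun c => tab 1 (fun d =>
    bif P a b c d then 1 else 0) 9) 9) 9) 9

/-- The index of the last four coordinates. -/
def ix4 (a b c d : ℕ) : ℕ := a * 729 + (b * 81 + (c * 9 + (d * 1 + 0)))

theorem ix4_lt {a b c d : ℕ} (ha : a < 9) (hb : b < 9) (hc : c < 9) (hd : d < 9) :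
    ix4 a b c d < 6561 := by
  unfold ix4; omega

theorem low_aux1 (P : ℕ → Bool) : tab 1 (fun d => bif P d then 1 else 0) 9 < 2 ^ 9 := by
  have := tab_lt (w := 1) (F := fun d => bif P d then 1 else 0) (r := 9) (by
    intro v _; cases P v <;> simp)
  simpa using this

theorem low_aux2 (P : ℕ → ℕ → Bool) :
    tab 9 (fun c => tab 1 (fun d => bif P c d then 1 else 0) 9) 9 < 2 ^ 81 := by
  have := tab_lt (w := 9) (F := fun c => tab 1 (fun d => bif P c d then 1 else 0) 9) (r := 9) (by
    intro v _; exact low_aux1 _)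
  simpa using this

theorem low_aux3 (P : ℕ → ℕ → ℕ → Bool) :
    tab 81 (fun b => tab 9 (fun c => tab 1 (fun d => bif P b c d then 1 else 0) 9) 9) 9
      < 2 ^ 729 := by
  have := tab_lt (w := 81) (F := fun b => tab 9 (fun c => tab 1 (fun d =>
    bif P b c d then 1 else 0) 9) 9) (r := 9) (by
    intro v _; exact low_aux2 _)
  simpa using this

theorem low_lt (P : ℕ → ℕ → ℕ → ℕ → Bool) : low P < 2 ^ 6561 := by
  have := tab_lt (w := 729) (F := fun a => tab 81 (fun b => tab 9 (fun c => tab 1 (fun d =>
    bif P a b c d then 1 else 0) 9) 9) 9) (r := 9) (by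
    intro v _; exact low_aux3 _)
  exact this

theorem testBit_low (P : ℕ → ℕ → ℕ → ℕ → Bool) {a b c d : ℕ} (ha : a < 9) (hb : b < 9)
    (hc : c < 9) (hd : d < 9) : (low P).testBit (ix4 a b c d) = P a b c d := by
  unfold low ix4
  rw [testBit_tab (fun v _ => low_aux3 _) a _ (by omega),
    testBit_tab (fun v _ => low_aux2 _) b _ (by omega),
    testBit_tab (fun v _ => low_aux1 _) c _ (by omega),
    testBit_tab (fun v _ => by cases P a b c v <;> simp) d _ (by omega)]
  simp only [ha, hb, hc, hd, decide_true, Bool.true_and]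
  cases P a b c d <;> rfl

/-- The code of a set from its sections. -/
noncomputable def lift (X0 Y0 : ℕ) (m : ℕ → ℕ → ℕ) : ℕ :=
  tab (Y0 * 6561) (fun x => tab 6561 (fun y => m x y) Y0) X0

theorem testBit_lift {X0 Y0 : ℕ} {m : ℕ → ℕ → ℕ} (hm : ∀ x y, m x y < 2 ^ 6561)
    {x y a b c d : ℕ} (hx : x < X0) (hy : y < Y0) (ha : a < 9) (hb : b < 9)
    (hc : c < 9) (hd : d < 9) :
    (lift X0 Y0 m).testBit (ix Y0 x y a b c d) = (m x y).testBit (ix4 a b c d) := by
  unfold lift ix
  rw [testBit_tab (fun v _ => tab_lt (fun u _ => hm v u)) x _ (by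
      have : (y + 1) * 6561 ≤ Y0 * 6561 := Nat.mul_le_mul_right _ hy
      omega),
    testBit_tab (fun v _ => hm x v) y _ (by omega)]
  simp [hx, hy, ix4]

end Pool.Agent.Helper62.KRK
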