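import Mathlib

/-!
# King and rook against king: the rules of the game

Squares are pairs `(x, y)` of natural numbers (file, rank); the squares of a board are those with
`1 ≤ x ≤ files` and `1 ≤ y ≤ ranks`, where `files` and `ranks` are in `ℕ∞`; the value `⊤` stands
for a board that is unbounded in that direction.
-/

namespace Pool.Agent.Helper62.KRK

/-- A square `(x, y)`: file `x`, rank `y`; a1 is `(1, 1)`. -/
abbrev Sq := ℕ × ℕ

/-- A board with the given numbers of files and ranks (`⊤` means unboundedly many). -/
structure Board where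
  files : ℕ∞
  ranks : ℕ∞

/-- The squares of the board. -/
def Board.Mem (B : Board) (s : Sq) : Prop :=
  1 ≤ s.1 ∧ 1 ≤ s.2 ∧ (s.1 : ℕ∞) ≤ B.files ∧ (s.2 : ℕ∞) ≤ B.ranks

/-- A king step leads from `a` to `b`: they are different and differ by at most one in each
coordinate. -/
def KingStep (a b : Sq) : Prop :=
  a ≠ b ∧ a.1 ≤ b.1 + 1 ∧ b.1 ≤ a.1 + 1 ∧ a.2 ≤ b.2 + 1 ∧ b.2 ≤ a.2 + 1

/-- `a` and `b` are different squares on one file or one rank. -/
def Line (a b : Sq) : Prop :=
  a ≠ b ∧ (a.1 = b.1 ∨ a.2 = b.2)

/-- `p` is strictly between `a` and `b` on a common file or on a common rank. -/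
def Between (p a b : Sq) : Prop :=
  (p.1 = a.1 ∧ p.1 = b.1 ∧ ((a.2 < p.2 ∧ p.2 < b.2) ∨ (b.2 < p.2 ∧ p.2 < a.2))) ∨
  (p.2 = a.2 ∧ p.2 = b.2 ∧ ((a.1 < p.1 ∧ p.1 < b.1) ∨ (b.1 < p.1 ∧ p.1 < a.1)))

/-- A placement of the White king, the White rook and the Black king. -/
structure Pos where
  wk : Sq
  wr : Sq
  bk : Sq

/-- The rook on `wr` attacks the square `s`, the only possible obstacle being the White king. -/
def RookHits (wk wr s : Sq) : Prop :=
  Line wr s ∧ ¬ Between wk wr s

/-- `q` arises from `p` by a legal move of White: either the king steps to an unoccupied square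
of the board that the Black king does not attack, or the rook moves along a file or a rank to an
unoccupied square of the board, not jumping over a king. -/
def WhiteMove (B : Board) (p q : Pos) : Prop :=
  q.bk = p.bk ∧
    ((q.wr = p.wr ∧ KingStep p.wk q.wk ∧ B.Mem q.wk ∧ q.wk ≠ p.wr ∧ q.wk ≠ p.bk ∧
        ¬ KingStep q.wk p.bk) ∨
     (q.wk = p.wk ∧ Line p.wr q.wr ∧ B.Mem q.wr ∧ q.wr ≠ p.wk ∧ q.wr ≠ p.bk ∧
        ¬ Between p.wk p.wr q.wr ∧ ¬ Between p.bk p.wr q.wr))

/-- With Black to move in `q`, the Black king may legally move to the square `s` of the board: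
`s` is not occupied or attacked by the White king, and it is either the square of the rook
(a capture) or a square that the rook does not attack once the Black king has left its square. -/
def BlackMove (B : Board) (q : Pos) (s : Sq) : Prop :=
  KingStep q.bk s ∧ B.Mem s ∧ s ≠ q.wk ∧ ¬ KingStep q.wk s ∧
    (s = q.wr ∨ ¬ RookHits q.wk q.wr s)

/-- The Black king stands on the last file or on the last rank, so that (with Black to move) it
can leave the board across the east or the north edge. This never happens if `files = ⊤` and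
`ranks = ⊤`. -/
def CanExit (B : Board) (q : Pos) : Prop :=
  (q.bk.1 : ℕ∞) = B.files ∨ (q.bk.2 : ℕ∞) = B.ranks

/-- With Black to move, the Black king is checkmated: it is attacked, has no legal move and
cannot leave the board. -/
def Checkmate (B : Board) (q : Pos) : Prop :=
  RookHits q.wk q.wr q.bk ∧ ¬ CanExit B q ∧ ∀ s, ¬ BlackMove B q s

/-- With White to move in `p`, White can force checkmate within `N` moves (of White).
A stalemate, a capture of the rook or an exit of the Black king is not a win for White. -/
def WinIn (B : Board) : ℕ → Pos → Prop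
  | 0, _ => False
  | N + 1, p => ∃ q, WhiteMove B p q ∧
      (Checkmate B q ∨
        (¬ CanExit B q ∧ (∃ s, BlackMove B q s) ∧
          ∀ s, BlackMove B q s → s ≠ q.wr ∧ WinIn B N ⟨q.wk, q.wr, s⟩))

/-- With White to move, White can force checkmate after finitely many moves. -/
inductive Wins (B : Board) : Pos → Prop
  | mate (p q : Pos) : WhiteMove B p q → Checkmate B q → Wins B p
  | move (p q : Pos) : WhiteMove B p q → ¬ CanExit B q → (∃ s, BlackMove B q s) →
      (∀ s, BlackMove B q s → s ≠ q.wr) →
      (∀ s, BlackMove B q s → Wins B ⟨q.wk, q.wr, s⟩) → Wins B p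

/-- The starting position: WK a1, WR b2, BK c3. -/
def start : Pos := ⟨(1, 1), (2, 2), (3, 3)⟩

end Pool.Agent.Helper62.KRK
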