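import Pool.Agent.Helper62.KRK.Sound

/-!
# The abstract game bounds the real one
-/

namespace Pool.Agent.Helper62.KRK

/-- The board is described by the parameters: files `1..X0` with an exit if `fx`, unbounded
otherwise, and similarly for the ranks. -/
structure Like (B : Board) (X0 Y0 : ℕ) (fx fy : Bool) : Prop where
  mem : ∀ s, B.Mem s ↔ 1 ≤ s.1 ∧ 1 ≤ s.2 ∧ (fx = true → s.1 ≤ X0) ∧ (fy = true → s.2 ≤ Y0)
  exit : ∀ q, CanExit B q ↔ (fx = true ∧ q.bk.1 = X0) ∨ (fy = true ∧ q.bk.2 = Y0)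
  hX : 5 ≤ X0
  hY : 5 ≤ Y0

/-- Legal placements. -/
structure Good (B : Board) (p : Pos) : Prop where
  hk : B.Mem p.wk
  hr : B.Mem p.wr
  hb : B.Mem p.bk
  near : ¬ (p.wk.1 ≤ p.bk.1 + 1 ∧ p.bk.1 ≤ p.wk.1 + 1 ∧ p.wk.2 ≤ p.bk.2 + 1 ∧
    p.bk.2 ≤ p.wk.2 + 1)
  rb : p.wr ≠ p.bk
  rk : p.wr ≠ p.wk

/-- The abstraction of the position is in the set. -/
def InP (X0 Y0 S : ℕ) (p : Pos) : Prop :=
  InS Y0 S (min p.bk.1 X0 - 1) (min p.bk.2 Y0 - 1) (rel p.wk.1 p.bk.1) (rel p.wk.2 p.bk.2)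
    (rel p.wr.1 p.bk.1) (rel p.wr.2 p.bk.2)

theorem rel_lt (v k : ℕ) : rel v k < 9 := by unfold rel; omega

/-! ### The Boolean conditions as propositions -/

theorem nearB_iff {u v : ℕ} : nearB u v = true ↔ u ≤ v + 1 ∧ v ≤ u + 1 := by
  simp [nearB]
theorem exB_iff {v : ℕ} : exB v = true ↔ 1 ≤ v ∧ v ≤ 7 := by
  simp [exB]
theorem btwB_iff {p q r : ℕ} : btwB p q r = true ↔ (p < q ∧ q < r) ∨ (r < q ∧ q < p) := by
  simp [btwB]
theorem beqN {a b : ℕ} : Nat.beq a b = true ↔ a = b := by simp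
theorem bleN {a b : ℕ} : Nat.ble a b = true ↔ a ≤ b := by simp
theorem notB {b : Bool} : (!b) = true ↔ ¬ (b = true) := by cases b <;> simp

theorem vlow_iff {a b c d : ℕ} : vlow a b c d = true ↔
    ¬ ((a ≤ 4 + 1 ∧ 4 ≤ a + 1) ∧ (b ≤ 4 + 1 ∧ 4 ≤ b + 1)) ∧ ¬ (c = 4 ∧ d = 4) ∧
      ¬ (a = c ∧ b = d ∧ (1 ≤ a ∧ a ≤ 7) ∧ (1 ≤ b ∧ b ≤ 7)) := by
  simp only [vlow, Bool.and_eq_true, notB, nearB_iff, exB_iff, beqN, and_assoc]

theorem leg_iff {tx ty a b c d : ℕ} : leg tx ty a b c d = true ↔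
    ¬ ((a ≤ tx + 1 ∧ tx ≤ a + 1) ∧ (b ≤ ty + 1 ∧ ty ≤ b + 1)) ∧ ¬ (c = tx ∧ d = ty) ∧
      (c ≠ tx ∨ (a = tx ∧ (1 ≤ b ∧ b ≤ 7) ∧ ((ty < b ∧ b < d) ∨ (d < b ∧ b < ty)))) ∧
      (d ≠ ty ∨ (b = ty ∧ (1 ≤ a ∧ a ≤ 7) ∧ ((tx < a ∧ a < c) ∨ (c < a ∧ a < tx)))) := by
  simp only [leg, Bool.and_eq_true, Bool.or_eq_true, notB, nearB_iff, exB_iff, btwB_iff, beqN,
    and_assoc, ne_eq]

theorem capB_iff {a b c d : ℕ} : capB a b c d = true ↔
    (c ≤ 4 + 1 ∧ 4 ≤ c + 1) ∧ (d ≤ 4 + 1 ∧ 4 ≤ d + 1) ∧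
      ¬ ((a ≤ c + 1 ∧ c ≤ a + 1) ∧ (b ≤ d + 1 ∧ d ≤ b + 1)) := by
  simp only [capB, Bool.and_eq_true, notB, nearB_iff, and_assoc]

theorem stalB_iff {a b c d : ℕ} : stalB a b c d = true ↔
    (1 ≤ a ∧ a ≤ 7) ∧ (1 ≤ b ∧ b ≤ 7) ∧
      ¬ ((c = 4 ∧ ¬ (a = 4 ∧ ((4 < b ∧ b < d) ∨ (d < b ∧ b < 4)))) ∨
        (d = 4 ∧ ¬ (b = 4 ∧ ((4 < a ∧ a < c) ∨ (c < a ∧ a < 4))))) ∧
      ¬ (leg 4 5 a b c d = true) ∧ ¬ (leg 5 4 a b c d = true) ∧ ¬ (leg 5 5 a b c d = true) := by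
  simp only [stalB, Bool.and_eq_true, Bool.or_eq_true, notB, exB_iff, btwB_iff, beqN, and_assoc]

section
variable {B : Board} {X0 Y0 : ℕ} {fx fy : Bool}

theorem xlt (h : 5 ≤ X0) (k : ℕ) : min k X0 - 1 < X0 := by omega

/-! ### Moves -/

theorem goE_mem (hX : 5 ≤ X0) (hY : 5 ≤ Y0) {S : ℕ} {k r : Sq} {u v : ℕ} (hu : 1 ≤ u)
    (h : InP X0 Y0 S ⟨k, r, (u + 1, v)⟩) : InP X0 Y0 (goE X0 Y0 S) ⟨k, r, (u, v)⟩ := by
  unfold InP at *
  unfold goE
  simp only at *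
  apply upX_mem (x' := min (u + 1) X0 - 1) _ (xlt hX _) (xlt hY _) (rel_lt _ _) (rel_lt _ _)
    (rel_lt _ _) (rel_lt _ _)
  · apply dnA_mem (a' := rel k.1 (u + 1)) _ (xlt hX _) (xlt hY _) (rel_lt _ _) (rel_lt _ _)
      (rel_lt _ _) (rel_lt _ _)
    · apply dnC_mem (c' := rel r.1 (u + 1)) _ (xlt hX _) (xlt hY _) (rel_lt _ _) (rel_lt _ _)
        (rel_lt _ _) (rel_lt _ _)
      · exact h
      · unfold Stp rel; omega
    · unfold Stp rel; omega
  · unfold AbsU; omega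

theorem goW_mem (hX : 5 ≤ X0) (hY : 5 ≤ Y0) {S : ℕ} {k r : Sq} {u v : ℕ} (hu : 2 ≤ u)
    (h : InP X0 Y0 S ⟨k, r, (u - 1, v)⟩) : InP X0 Y0 (goW X0 Y0 S) ⟨k, r, (u, v)⟩ := by
  unfold InP at *
  unfold goW
  simp only at *
  apply dnX_mem (x' := min (u - 1) X0 - 1) _ (xlt hX _) (xlt hY _) (rel_lt _ _) (rel_lt _ _)
    (rel_lt _ _) (rel_lt _ _)
  · apply upA_mem (a' := rel k.1 (u - 1)) _ (xlt hX _) (xlt hY _) (rel_lt _ _) (rel_lt _ _)
      (rel_lt _ _) (rel_lt _ _)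
    · apply upC_mem (c' := rel r.1 (u - 1)) _ (xlt hX _) (xlt hY _) (rel_lt _ _) (rel_lt _ _)
        (rel_lt _ _) (rel_lt _ _)
      · exact h
      · unfold Stp rel; omega
    · unfold Stp rel; omega
  · unfold AbsD; omega

theorem goN_mem (hX : 5 ≤ X0) (hY : 5 ≤ Y0) {S : ℕ} {k r : Sq} {u v : ℕ} (hu : 1 ≤ v)
    (h : InP X0 Y0 S ⟨k, r, (u, v + 1)⟩) : InP X0 Y0 (goN X0 Y0 S) ⟨k, r, (u, v)⟩ := by
  unfold InP at *
  unfold goN
  simp only at *
  apply upY_mem (y' := min (v + 1) Y0 - 1) _ (xlt hX _) (xlt hY _) (rel_lt _ _) (rel_lt _ _)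
    (rel_lt _ _) (rel_lt _ _)
  · apply dnB_mem (b' := rel k.2 (v + 1)) _ (xlt hX _) (xlt hY _) (rel_lt _ _) (rel_lt _ _)
      (rel_lt _ _) (rel_lt _ _)
    · apply dnD_mem (d' := rel r.2 (v + 1)) _ (xlt hX _) (xlt hY _) (rel_lt _ _) (rel_lt _ _)
        (rel_lt _ _) (rel_lt _ _)
      · exact h
      · unfold Stp rel; omega
    · unfold Stp rel; omega
  · unfold AbsU; omega

theorem goS_mem (hX : 5 ≤ X0) (hY : 5 ≤ Y0) {S : ℕ} {k r : Sq} {u v : ℕ} (hu : 2 ≤ v)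
    (h : InP X0 Y0 S ⟨k, r, (u, v - 1)⟩) : InP X0 Y0 (goS X0 Y0 S) ⟨k, r, (u, v)⟩ := by
  unfold InP at *
  unfold goS
  simp only at *
  apply dnY_mem (y' := min (v - 1) Y0 - 1) _ (xlt hX _) (xlt hY _) (rel_lt _ _) (rel_lt _ _)
    (rel_lt _ _) (rel_lt _ _)
  · apply upB_mem (b' := rel k.2 (v - 1)) _ (xlt hX _) (xlt hY _) (rel_lt _ _) (rel_lt _ _)
      (rel_lt _ _) (rel_lt _ _)
    · apply upD_mem (d' := rel r.2 (v - 1)) _ (xlt hX _) (xlt hY _) (rel_lt _ _) (rel_lt _ _)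
        (rel_lt _ _) (rel_lt _ _)
      · exact h
      · unfold Stp rel; omega
    · unfold Stp rel; omega
  · unfold AbsD; omega

/-- Change of the `a` coordinate. -/
theorem kE_mem (hX : 5 ≤ X0) (hY : 5 ≤ Y0) {S : ℕ} {r k : Sq} {u v : ℕ}
    (h : InP X0 Y0 S ⟨(u + 1, v), r, k⟩) : InP X0 Y0 (upA X0 Y0 S) ⟨(u, v), r, k⟩ := by
  unfold InP at *
  simp only at *
  apply upA_mem (a' := rel (u + 1) k.1) _ (xlt hX _) (xlt hY _) (rel_lt _ _) (rel_lt _ _)
    (rel_lt _ _) (rel_lt _ _)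
  · exact h
  · unfold Stp rel; omega

theorem kW_mem (hX : 5 ≤ X0) (hY : 5 ≤ Y0) {S : ℕ} {r k : Sq} {u v : ℕ}
    (h : InP X0 Y0 S ⟨(u, v), r, k⟩) : InP X0 Y0 (dnA X0 Y0 S) ⟨(u + 1, v), r, k⟩ := by
  unfold InP at *
  simp only at *
  apply dnA_mem (a' := rel u k.1) _ (xlt hX _) (xlt hY _) (rel_lt _ _) (rel_lt _ _)
    (rel_lt _ _) (rel_lt _ _)
  · exact h
  · unfold Stp rel; omega

theorem kN_mem (hX : 5 ≤ X0) (hY : 5 ≤ Y0) {S : ℕ} {r k : Sq} {u v : ℕ}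
    (h : InP X0 Y0 S ⟨(u, v + 1), r, k⟩) : InP X0 Y0 (upB X0 Y0 S) ⟨(u, v), r, k⟩ := by
  unfold InP at *
  simp only at *
  apply upB_mem (b' := rel (v + 1) k.2) _ (xlt hX _) (xlt hY _) (rel_lt _ _) (rel_lt _ _)
    (rel_lt _ _) (rel_lt _ _)
  · exact h
  · unfold Stp rel; omega

theorem kS_mem (hX : 5 ≤ X0) (hY : 5 ≤ Y0) {S : ℕ} {r k : Sq} {u v : ℕ}
    (h : InP X0 Y0 S ⟨(u, v), r, k⟩) : InP X0 Y0 (dnB X0 Y0 S) ⟨(u, v + 1), r, k⟩ := by
  unfold InP at *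
  simp only at *
  apply dnB_mem (b' := rel v k.2) _ (xlt hX _) (xlt hY _) (rel_lt _ _) (rel_lt _ _)
    (rel_lt _ _) (rel_lt _ _)
  · exact h
  · unfold Stp rel; omega

theorem rE_mem (hX : 5 ≤ X0) (hY : 5 ≤ Y0) {S : ℕ} {r k : Sq} {u v : ℕ}
    (h : InP X0 Y0 S ⟨r, (u + 1, v), k⟩) : InP X0 Y0 (upC X0 Y0 S) ⟨r, (u, v), k⟩ := by
  unfold InP at *
  simp only at *
  apply upC_mem (c' := rel (u + 1) k.1) _ (xlt hX _) (xlt hY _) (rel_lt _ _) (rel_lt _ _)
    (rel_lt _ _) (rel_lt _ _)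
  · exact h
  · unfold Stp rel; omega

theorem rW_mem (hX : 5 ≤ X0) (hY : 5 ≤ Y0) {S : ℕ} {r k : Sq} {u v : ℕ}
    (h : InP X0 Y0 S ⟨r, (u, v), k⟩) : InP X0 Y0 (dnC X0 Y0 S) ⟨r, (u + 1, v), k⟩ := by
  unfold InP at *
  simp only at *
  apply dnC_mem (c' := rel u k.1) _ (xlt hX _) (xlt hY _) (rel_lt _ _) (rel_lt _ _)
    (rel_lt _ _) (rel_lt _ _)
  · exact h
  · unfold Stp rel; omega

theorem rN_mem (hX : 5 ≤ X0) (hY : 5 ≤ Y0) {S : ℕ} {r k : Sq} {u v : ℕ}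
    (h : InP X0 Y0 S ⟨r, (u, v + 1), k⟩) : InP X0 Y0 (upD X0 Y0 S) ⟨r, (u, v), k⟩ := by
  unfold InP at *
  simp only at *
  apply upD_mem (d' := rel (v + 1) k.2) _ (xlt hX _) (xlt hY _) (rel_lt _ _) (rel_lt _ _)
    (rel_lt _ _) (rel_lt _ _)
  · exact h
  · unfold Stp rel; omega

theorem rS_mem (hX : 5 ≤ X0) (hY : 5 ≤ Y0) {S : ℕ} {r k : Sq} {u v : ℕ}
    (h : InP X0 Y0 S ⟨r, (u, v), k⟩) : InP X0 Y0 (dnD X0 Y0 S) ⟨r, (u, v + 1), k⟩ := by
  unfold InP at *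
  simp only at *
  apply dnD_mem (d' := rel v k.2) _ (xlt hX _) (xlt hY _) (rel_lt _ _) (rel_lt _ _)
    (rel_lt _ _) (rel_lt _ _)
  · exact h
  · unfold Stp rel; omega

/-! ### Relative coordinates -/

theorem rel_eq {v k t : ℕ} (h1 : 1 ≤ t) (h2 : t ≤ 7) : rel v k = t ↔ v + 4 = k + t := by
  unfold rel; omega

theorem rel_exact {v k : ℕ} (h1 : 1 ≤ rel v k) (h2 : rel v k ≤ 7) : v + 4 = k + rel v k := by
  unfold rel at *; omega

theorem lt_rel {v k t : ℕ} (h : t < rel v k) : k + t < v + 4 := by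
  unfold rel at *; omega

theorem rel_lt_of {v k t : ℕ} (h : rel v k < t) (ht : t ≤ 8) : v + 4 < k + t := by
  unfold rel at *; omega

/-- Nearness of the White king to a square next to the Black king. -/
theorem near_rel {v k t : ℕ} (h1 : 3 ≤ t) (h2 : t ≤ 5) :
    (rel v k ≤ t + 1 ∧ t ≤ rel v k + 1) ↔ (v + 4 ≤ k + t + 1 ∧ k + t ≤ v + 4 + 1) := by
  unfold rel; omega

theorem near_rel2 {v r k : ℕ} (h1 : rel r k ≤ 5) (h2 : 3 ≤ rel r k) :
    (rel v k ≤ rel r k + 1 ∧ rel r k ≤ rel v k + 1) ↔ (v ≤ r + 1 ∧ r ≤ v + 1) := by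
  have := rel_exact (v := r) (k := k) (by omega) (by omega)
  rw [near_rel h2 h1]
  omega

/-! ### Validity -/

theorem valid_mem (hB : Like B X0 Y0 fx fy) {p : Pos} (hp : Good B p) :
    InP X0 Y0 (valid X0 Y0 fx fy) p := by
  obtain ⟨hk, hr, hb, near, rb, rk⟩ := hp
  obtain ⟨⟨k1, k2⟩, ⟨r1, r2⟩, ⟨b1, b2⟩⟩ := p
  rw [hB.mem] at hk hr hb
  have hX := hB.hX
  have hY := hB.hY
  simp only [ne_eq, Prod.mk.injEq] at hk hr hb near rb rk
  unfold InP InS valid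
  simp only
  rw [Nat.testBit_and, Nat.testBit_and, testBit_mL _ (xlt hX _) (xlt hY _) (rel_lt _ _)
    (rel_lt _ _) (rel_lt _ _) (rel_lt _ _),
    testBit_lift (fun x _ => by cases fx; exacts [ones_lt, secA_lt _]) (xlt hX _) (xlt hY _)
      (rel_lt _ _) (rel_lt _ _) (rel_lt _ _) (rel_lt _ _),
    testBit_lift (fun _ y => by cases fy; exacts [ones_lt, secB_lt _]) (xlt hX _) (xlt hY _)
      (rel_lt _ _) (rel_lt _ _) (rel_lt _ _) (rel_lt _ _)]
  rw [Bool.and_eq_true, Bool.and_eq_true]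
  refine ⟨?_, ?_, ?_⟩
  · rw [vlow_iff]
    refine ⟨?_, ?_, ?_⟩
    · rintro ⟨h1, h2⟩
      rw [near_rel (by norm_num) (by norm_num)] at h1 h2
      apply near
      omega
    · rintro ⟨h1, h2⟩
      rw [rel_eq (by norm_num) (by norm_num)] at h1 h2
      apply rb
      omega
    · rintro ⟨h1, h2, ⟨h3, h4⟩, h5, h6⟩
      have e1 := rel_exact h3 h4
      have e2 := rel_exact h5 h6
      rw [h1] at h3 h4
      rw [h2] at h5 h6
      have e3 := rel_exact h3 h4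
      have e4 := rel_exact h5 h6
      apply rk
      omega
  · cases fx with
    | false => exact testBit_ones (ix4_lt (rel_lt _ _) (rel_lt _ _) (rel_lt _ _) (rel_lt _ _))
    | true =>
      simp only [cond_true]
      rw [testBit_secA _ (rel_lt _ _) (rel_lt _ _) (rel_lt _ _) (rel_lt _ _), bleN]
      have h1 := hk.2.2.1 rfl
      have h2 := hb.2.2.1 rfl
      clear hk hr hb near rb rk
      unfold rel
      omega
  · cases fy with
    | false => exact testBit_ones (ix4_lt (rel_lt _ _) (rel_lt _ _) (rel_lt _ _) (rel_lt _ _))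
    | true =>
      simp only [cond_true]
      rw [testBit_secB _ (rel_lt _ _) (rel_lt _ _) (rel_lt _ _) (rel_lt _ _), bleN]
      have h1 := hk.2.2.2 rfl
      have h2 := hb.2.2.2 rfl
      clear hk hr hb near rb rk
      unfold rel
      omega

/-! ### Legal moves of Black -/

/-- The coded condition excludes an attack of the rook on the target square along a file. -/
theorem not_hit {k1 k2 r1 r2 u v tx ty : ℕ} (h3x : 3 ≤ tx) (h3y : 3 ≤ ty) (hx5 : tx ≤ 5)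
    (hy5 : ty ≤ 5) (hu : 1 ≤ u + tx - 4) (hv : 1 ≤ v + ty - 4)
    (h3 : rel r1 u ≠ tx ∨ (rel k1 u = tx ∧ (1 ≤ rel k2 v ∧ rel k2 v ≤ 7) ∧
      ((ty < rel k2 v ∧ rel k2 v < rel r2 v) ∨ (rel r2 v < rel k2 v ∧ rel k2 v < ty))))
    (h4 : rel r2 v ≠ ty ∨ (rel k2 v = ty ∧ (1 ≤ rel k1 u ∧ rel k1 u ≤ 7) ∧
      ((tx < rel k1 u ∧ rel k1 u < rel r1 u) ∨ (rel r1 u < rel k1 u ∧ rel k1 u < tx)))) :
    ¬ RookHits (k1, k2) (r1, r2) (u + tx - 4, v + ty - 4) := by
  rintro ⟨⟨hne, hl⟩, hbt⟩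
  apply hbt
  simp only at hl
  rcases hl with hl | hl
  · left
    have e : rel r1 u = tx := by rw [rel_eq (by omega) (by omega)]; omega
    rcases h3 with h3 | ⟨ha, ⟨hb1, hb2⟩, h3⟩
    · exact absurd e h3
    · rw [rel_eq (by omega) (by omega)] at ha
      have eb := rel_exact hb1 hb2
      refine ⟨by simp only; omega, by simp only; omega, ?_⟩
      rcases h3 with ⟨h5, h6⟩ | ⟨h5, h6⟩
      · right
        have := lt_rel h6
        simp only
        omega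
      · left
        have := rel_lt_of h5 (by omega)
        simp only
        omega
  · right
    have e : rel r2 v = ty := by rw [rel_eq (by omega) (by omega)]; omega
    rcases h4 with h4 | ⟨ha, ⟨hb1, hb2⟩, h4⟩
    · exact absurd e h4
    · rw [rel_eq (by omega) (by omega)] at ha
      have eb := rel_exact hb1 hb2
      refine ⟨by simp only; omega, by simp only; omega, ?_⟩
      rcases h4 with ⟨h5, h6⟩ | ⟨h5, h6⟩
      · right
        have := lt_rel h6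
        simp only
        omega
      · left
        have := rel_lt_of h5 (by omega)
        simp only
        omega

theorem legM_elim (hB : Like B X0 Y0 fx fy) {k r : Sq} {u v : ℕ} (hp : Good B ⟨k, r, (u, v)⟩)
    (hne : ¬ CanExit B ⟨k, r, (u, v)⟩)
    {tx ty : ℕ} (h3x : 3 ≤ tx) (h3y : 3 ≤ ty) (hx5 : tx ≤ 5) (hy5 : ty ≤ 5)
    (h44 : ¬ (tx = 4 ∧ ty = 4))
    (h : InP X0 Y0 (legM X0 Y0 tx ty) ⟨k, r, (u, v)⟩) :
    BlackMove B ⟨k, r, (u, v)⟩ (u + tx - 4, v + ty - 4) ∧ (u + tx - 4, v + ty - 4) ≠ r ∧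
      1 ≤ u + tx - 4 ∧ 1 ≤ v + ty - 4 := by
  obtain ⟨hk, hr, hb, near, rb, rk⟩ := hp
  obtain ⟨k1, k2⟩ := k
  obtain ⟨r1, r2⟩ := r
  rw [hB.mem] at hk hr hb
  rw [hB.exit] at hne
  have hX := hB.hX
  have hY := hB.hY
  simp only [ne_eq, Prod.mk.injEq] at hk hr hb near rb rk hne
  unfold InP InS legM at h
  simp only at h
  rw [testBit_lift (fun x y => by
    cases ((Nat.ble 4 tx || Nat.ble 1 x) && (Nat.ble 4 ty || Nat.ble 1 y))
    · simp
    · exact low_lt _) (xlt hX _) (xlt hY _)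
      (rel_lt _ _) (rel_lt _ _) (rel_lt _ _) (rel_lt _ _)] at h
  have hw : ((Nat.ble 4 tx || Nat.ble 1 (min u X0 - 1)) &&
      (Nat.ble 4 ty || Nat.ble 1 (min v Y0 - 1))) = true := by
    by_contra hc
    rw [Bool.not_eq_true] at hc
    rw [hc] at h
    simp at h
  rw [hw] at h
  simp only [cond_true] at h
  rw [testBit_low _ (rel_lt _ _) (rel_lt _ _) (rel_lt _ _) (rel_lt _ _), leg_iff] at h
  rw [Bool.and_eq_true, Bool.or_eq_true, Bool.or_eq_true, bleN, bleN, bleN, bleN] at hw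
  obtain ⟨h1, h2, h3, h4⟩ := h
  have hu1 : 1 ≤ u + tx - 4 := by
    have := hb.1
    clear h1 h2 h3 h4 near rb rk hk hr hb hne
    omega
  have hv1 : 1 ≤ v + ty - 4 := by
    have := hb.2.1
    clear h1 h2 h3 h4 near rb rk hk hr hb hne
    omega
  rw [near_rel (by omega) (by omega), near_rel (by omega) (by omega)] at h1
  rw [rel_eq (by omega) (by omega), rel_eq (by omega) (by omega)] at h2
  refine ⟨⟨?_, ?_, ?_, ?_, ?_⟩, ?_, hu1, hv1⟩
  · clear h1 h2 h3 h4 near rb rk hk hr hb hne hw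
    unfold KingStep
    simp only [ne_eq, Prod.mk.injEq]
    omega
  · rw [hB.mem]
    refine ⟨hu1, hv1, ?_, ?_⟩
    · intro hf
      have h5 := hb.2.2.1 hf
      have h6 : ¬ (u = X0) := fun h7 => hne (Or.inl ⟨hf, h7⟩)
      clear h1 h2 h3 h4 near rb rk hk hr hb hne hw
      simp only
      omega
    · intro hf
      have h5 := hb.2.2.2 hf
      have h6 : ¬ (v = Y0) := fun h7 => hne (Or.inr ⟨hf, h7⟩)
      clear h1 h2 h3 h4 near rb rk hk hr hb hne hw
      simp only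
      omega
  · clear h2 h3 h4 near rb rk hk hr hb hne hw
    simp only [ne_eq, Prod.mk.injEq]
    omega
  · clear h2 h3 h4 near rb rk hk hr hb hne hw
    rintro ⟨_, h5, h6, h7, h8⟩
    simp only at h5 h6 h7 h8
    omega
  · exact Or.inr (not_hit h3x h3y hx5 hy5 hu1 hv1 h3 h4)
  · clear h1 h3 h4 near rb rk hk hr hb hne hw
    simp only [ne_eq, Prod.mk.injEq]
    omega

/-- In the corner, a target square that is not coded as reachable is not reachable, except by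
capturing the rook. -/
theorem not_leg {k1 k2 r1 r2 s1 s2 : ℕ} (h3x : 1 ≤ s1) (h3y : 1 ≤ s2) (hx5 : s1 ≤ 2)
    (hy5 : s2 ≤ 2) (hk1 : 1 ≤ rel k1 1 ∧ rel k1 1 ≤ 7) (hk2 : 1 ≤ rel k2 1 ∧ rel k2 1 ≤ 7)
    (h : ¬ (leg (s1 + 3) (s2 + 3) (rel k1 1) (rel k2 1) (rel r1 1) (rel r2 1) = true))
    (hs : (s1, s2) ≠ (k1, k2)) (hs2 : ¬ KingStep (k1, k2) (s1, s2))
    (hs3 : (s1, s2) = (r1, r2) ∨ ¬ RookHits (k1, k2) (r1, r2) (s1, s2)) :
    (s1, s2) = (r1, r2) := by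
  rcases hs3 with hs3 | hs3
  · exact hs3
  by_contra hnr
  apply h
  rw [leg_iff]
  have e1 := rel_exact hk1.1 hk1.2
  have e2 := rel_exact hk2.1 hk2.2
  simp only [Prod.mk.injEq, not_and, ne_eq] at hs hnr
  unfold RookHits Line at hs3
  simp only [ne_eq, Prod.mk.injEq] at hs3
  refine ⟨?_, ?_, ?_, ?_⟩
  · rw [near_rel (by omega) (by omega), near_rel (by omega) (by omega)]
    rintro ⟨h5, h6⟩
    apply hs2
    unfold KingStep
    simp only [ne_eq, Prod.mk.injEq]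
    clear hs3 hs2 h e1 e2 hk1 hk2
    omega
  · rintro ⟨h5, h6⟩
    rw [rel_eq (by omega) (by omega)] at h5 h6
    exact hnr (by omega) (by omega)
  · by_cases hc : rel r1 1 = s1 + 3
    · right
      rw [rel_eq (by omega) (by omega)] at hc
      have h7 : r2 ≠ s2 := fun h8 => hnr (by omega) h8.symm
      have h8 : Between (k1, k2) (r1, r2) (s1, s2) := by
        by_contra h9
        exact hs3 ⟨⟨by omega, by omega⟩, h9⟩
      rcases h8 with ⟨h9, h10, h11⟩ | ⟨h9, h10, h11⟩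
      · simp only at h9 h10 h11
        refine ⟨by rw [rel_eq (by omega) (by omega)]; omega, hk2, ?_⟩
        clear hs3 hs2 h e1 hk1 hs hnr
        rcases h11 with ⟨h12, h13⟩ | ⟨h12, h13⟩
        · right
          refine ⟨?_, by omega⟩
          unfold rel at *
          omega
        · left
          refine ⟨by omega, ?_⟩
          unfold rel at *
          omega
      · simp only at h9 h10 h11
        omega
    · exact Or.inl hc
  · by_cases hc : rel r2 1 = s2 + 3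
    · right
      rw [rel_eq (by omega) (by omega)] at hc
      have h7 : r1 ≠ s1 := fun h8 => hnr h8.symm (by omega)
      have h8 : Between (k1, k2) (r1, r2) (s1, s2) := by
        by_contra h9
        exact hs3 ⟨⟨by omega, by omega⟩, h9⟩
      rcases h8 with ⟨h9, h10, h11⟩ | ⟨h9, h10, h11⟩
      · simp only at h9 h10 h11
        omega
      · simp only at h9 h10 h11
        refine ⟨by rw [rel_eq (by omega) (by omega)]; omega, hk1, ?_⟩
        clear hs3 hs2 h e2 hk2 hs hnr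
        rcases h11 with ⟨h12, h13⟩ | ⟨h12, h13⟩
        · right
          refine ⟨?_, by omega⟩
          unfold rel at *
          omega
        · left
          refine ⟨by omega, ?_⟩
          unfold rel at *
          omega
    · exact Or.inl hc

theorem not_check {k1 k2 r1 r2 : ℕ} (hk1 : 1 ≤ rel k1 1 ∧ rel k1 1 ≤ 7)
    (hk2 : 1 ≤ rel k2 1 ∧ rel k2 1 ≤ 7)
    (h : ¬ ((rel r1 1 = 4 ∧ ¬ (rel k1 1 = 4 ∧ ((4 < rel k2 1 ∧ rel k2 1 < rel r2 1) ∨
        (rel r2 1 < rel k2 1 ∧ rel k2 1 < 4)))) ∨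
      (rel r2 1 = 4 ∧ ¬ (rel k2 1 = 4 ∧ ((4 < rel k1 1 ∧ rel k1 1 < rel r1 1) ∨
        (rel r1 1 < rel k1 1 ∧ rel k1 1 < 4)))))) :
    ¬ RookHits (k1, k2) (r1, r2) (1, 1) := by
  rw [not_or] at h
  obtain ⟨h1, h2⟩ := h
  have := not_hit (k1 := k1) (k2 := k2) (r1 := r1) (r2 := r2) (u := 1) (v := 1) (tx := 4) (ty := 4)
    (by norm_num) (by norm_num) (by norm_num) (by norm_num) (by norm_num) (by norm_num)
    (by
      by_cases hc : rel r1 1 = 4
      · right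
        have h3 : rel k1 1 = 4 ∧ ((4 < rel k2 1 ∧ rel k2 1 < rel r2 1) ∨
            (rel r2 1 < rel k2 1 ∧ rel k2 1 < 4)) := by
          by_contra h4
          exact h1 ⟨hc, h4⟩
        exact ⟨h3.1, hk2, h3.2⟩
      · exact Or.inl hc)
    (by
      by_cases hc : rel r2 1 = 4
      · right
        have h3 : rel k2 1 = 4 ∧ ((4 < rel k1 1 ∧ rel k1 1 < rel r1 1) ∨
            (rel r1 1 < rel k1 1 ∧ rel k1 1 < 4)) := by
          by_contra h4
          exact h2 ⟨hc, h4⟩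
        exact ⟨h3.1, hk1, h3.2⟩
      · exact Or.inl hc)
  simpa using this

theorem capB_elim (hB : Like B X0 Y0 fx fy) {k1 k2 r1 r2 u v : ℕ}
    (hp : Good B ⟨(k1, k2), (r1, r2), (u, v)⟩)
    (h1 : capB (rel k1 u) (rel k2 v) (rel r1 u) (rel r2 v) = true) :
    BlackMove B ⟨(k1, k2), (r1, r2), (u, v)⟩ (r1, r2) := by
  obtain ⟨hk, hr, hb, near, rb, rk⟩ := hp
  rw [capB_iff] at h1
  obtain ⟨⟨h2, h3⟩, ⟨h4, h5⟩, h6⟩ := h1
  rw [near_rel2 (by omega) (by omega), near_rel2 (by omega) (by omega)] at h6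
  have e1 := rel_exact (v := r1) (k := u) (by omega) (by omega)
  have e2 := rel_exact (v := r2) (k := v) (by omega) (by omega)
  simp only [ne_eq, Prod.mk.injEq] at near rb rk
  refine ⟨?_, hr, ?_, ?_, Or.inl rfl⟩
  · unfold KingStep
    simp only [ne_eq, Prod.mk.injEq]
    clear h6 near rk
    omega
  · simp only [ne_eq, Prod.mk.injEq]
    exact rk
  · rintro ⟨_, h7, h8, h9, h10⟩
    simp only at h7 h8 h9 h10
    exact h6 ⟨⟨h7, h8⟩, ⟨h9, h10⟩⟩

/-- Positions coded as safe are not lost. -/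
theorem safe_elim (hB : Like B X0 Y0 fx fy) {q : Pos} (hp : Good B q)
    (h : InP X0 Y0 (safe X0 Y0 fx fy) q) :
    CanExit B q ∨ BlackMove B q q.wr ∨
      (¬ RookHits q.wk q.wr q.bk ∧ ∀ s, BlackMove B q s → s = q.wr) := by
  by_cases hne : CanExit B q
  · exact Or.inl hne
  right
  obtain ⟨⟨k1, k2⟩, ⟨r1, r2⟩, ⟨u, v⟩⟩ := q
  have hcap := capB_elim hB hp
  obtain ⟨hk, hr, hb, near, rb, rk⟩ := hp
  rw [hB.mem] at hk hr hb
  have hX := hB.hX
  have hY := hB.hY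
  rw [hB.exit] at hne
  simp only at hb hne hr
  unfold InP InS safe at h
  simp only at h
  rw [testBit_lift (fun x y => by
    cases ((fx && Nat.beq (x + 1) X0) || (fy && Nat.beq (y + 1) Y0))
    · cases (Nat.beq x 0 && Nat.beq y 0)
      · exact low_lt _
      · exact Nat.or_lt_two_pow (low_lt _) (low_lt _)
    · exact ones_lt) (xlt hX _) (xlt hY _)
      (rel_lt _ _) (rel_lt _ _) (rel_lt _ _) (rel_lt _ _)] at h
  have hw : ((fx && Nat.beq ((min u X0 - 1) + 1) X0) || (fy && Nat.beq ((min v Y0 - 1) + 1) Y0))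
      = false := by
    by_contra hc
    rw [Bool.not_eq_false, Bool.or_eq_true, Bool.and_eq_true, Bool.and_eq_true, beqN, beqN] at hc
    rcases hc with ⟨h1, h2⟩ | ⟨h1, h2⟩
    · have h3 := hb.2.2.1 h1
      exact hne (Or.inl ⟨h1, by omega⟩)
    · have h3 := hb.2.2.2 h1
      exact hne (Or.inr ⟨h1, by omega⟩)
  rw [hw] at h
  simp only [cond_false] at h
  by_cases h0 : (Nat.beq (min u X0 - 1) 0 && Nat.beq (min v Y0 - 1) 0) = true
  · rw [h0] at h
    simp only [cond_true] at h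
    rw [Nat.testBit_or, testBit_low _ (rel_lt _ _) (rel_lt _ _) (rel_lt _ _) (rel_lt _ _),
      testBit_low _ (rel_lt _ _) (rel_lt _ _) (rel_lt _ _) (rel_lt _ _), Bool.or_eq_true] at h
    rw [Bool.and_eq_true, beqN, beqN] at h0
    have hu : u = 1 := by omega
    have hv : v = 1 := by omega
    subst hu hv
    rcases h with h | h
    · exact Or.inl (hcap h)
    · right
      rw [stalB_iff] at h
      obtain ⟨ha, hb', hchk, h45, h54, h55⟩ := h
      refine ⟨not_check ha hb' hchk, ?_⟩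
      rintro ⟨s1, s2⟩ ⟨m1, m2, m3, m4, m5⟩
      rw [hB.mem] at m2
      obtain ⟨n1, n2, n3, n4, n5⟩ := m1
      simp only [ne_eq, Prod.mk.injEq] at n1 n2 n3 n4 n5 m2
      have hs : (s1 = 1 ∧ s2 = 2) ∨ (s1 = 2 ∧ s2 = 1) ∨ (s1 = 2 ∧ s2 = 2) := by omega
      rcases hs with ⟨e1, e2⟩ | ⟨e1, e2⟩ | ⟨e1, e2⟩
      · subst e1 e2
        exact not_leg (by norm_num) (by norm_num) (by norm_num) (by norm_num) ha hb' h45 m3 m4 m5
      · subst e1 e2
        exact not_leg (by norm_num) (by norm_num) (by norm_num) (by norm_num) ha hb' h54 m3 m4 m5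
      · subst e1 e2
        exact not_leg (by norm_num) (by norm_num) (by norm_num) (by norm_num) ha hb' h55 m3 m4 m5
  · rw [Bool.not_eq_true] at h0
    rw [h0] at h
    simp only [cond_false] at h
    rw [testBit_low _ (rel_lt _ _) (rel_lt _ _) (rel_lt _ _) (rel_lt _ _)] at h
    exact Or.inl (hcap h)

/-! ### The sets of lost positions with Black to move -/

/-- Black, to move in `q`, is lost if `R` are the positions (White to move) that count as won. -/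
def Lost (B : Board) (R : Pos → Prop) (q : Pos) : Prop :=
  Checkmate B q ∨ (¬ CanExit B q ∧ (∃ s, BlackMove B q s) ∧
    ∀ s, BlackMove B q s → s ≠ q.wr ∧ R ⟨q.wk, q.wr, s⟩)

theorem cut_mem {A lg pre i : ℕ} (hA : A.testBit i = true)
    (h : lg.testBit i = true → pre.testBit i = true) : (cut A lg pre).testBit i = true := by
  unfold cut
  rw [Nat.testBit_or, testBit_sdf, Nat.testBit_and, hA]
  cases h1 : lg.testBit i
  · rfl
  · simp [h h1]

theorem good_black (hB : Like B X0 Y0 fx fy) {q : Pos} {s : Sq} (hq : Good B q)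
    (hs : BlackMove B q s) (hr : s ≠ q.wr) : Good B ⟨q.wk, q.wr, s⟩ := by
  obtain ⟨m1, m2, m3, m4, m5⟩ := hs
  refine ⟨hq.hk, hq.hr, m2, ?_, fun h => hr h.symm, hq.rk⟩
  unfold KingStep at m4
  obtain ⟨⟨k1, k2⟩, ⟨r1, r2⟩, ⟨u, v⟩⟩ := q
  obtain ⟨s1, s2⟩ := s
  simp only [ne_eq, Prod.mk.injEq] at *
  omega

theorem stepL_mem (hB : Like B X0 Y0 fx fy) {W : ℕ} {R : Pos → Prop}
    (hW : ∀ p, Good B p → R p → InP X0 Y0 W p) {q : Pos} (hq : Good B q) (hL : Lost B R q) :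
    InP X0 Y0 (stepL X0 Y0 fx fy W) q := by
  have hX := hB.hX
  have hY := hB.hY
  have hne : ¬ CanExit B q := by
    rcases hL with h | h
    · exact h.2.1
    · exact h.1
  have hmove : ∀ s, BlackMove B q s → s ≠ q.wr → InP X0 Y0 W ⟨q.wk, q.wr, s⟩ := by
    intro s hs hr
    rcases hL with h | h
    · exact absurd hs (h.2.2 s)
    · exact hW _ (good_black hB hq hs hr) (h.2.2 s hs).2
  have hsafe : ¬ InP X0 Y0 (safe X0 Y0 fx fy) q := by
    intro h
    rcases safe_elim hB hq h with h1 | h1 | ⟨h1, h2⟩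
    · exact hne h1
    · rcases hL with h3 | h3
      · exact h3.2.2 _ h1
      · exact (h3.2.2 _ h1).1 rfl
    · rcases hL with h3 | ⟨_, ⟨s, hs⟩, h3⟩
      · exact h1 h3.1
      · exact (h3 s hs).1 (h2 s hs)
  have hv := valid_mem hB hq
  obtain ⟨k, r, ⟨u, v⟩⟩ := q
  have hb := hq.hb
  rw [hB.mem] at hb
  simp only at hb hmove
  have key : ∀ tx ty : ℕ, 3 ≤ tx → 3 ≤ ty → tx ≤ 5 → ty ≤ 5 → ¬ (tx = 4 ∧ ty = 4) →
      InP X0 Y0 (legM X0 Y0 tx ty) ⟨k, r, (u, v)⟩ →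
      InP X0 Y0 W ⟨k, r, (u + tx - 4, v + ty - 4)⟩ ∧ 1 ≤ u + tx - 4 ∧ 1 ≤ v + ty - 4 := by
    intro tx ty h1 h2 h3 h4 h5 h6
    obtain ⟨h7, h8, h9, h10⟩ := legM_elim hB hq hne h1 h2 h3 h4 h5 h6
    exact ⟨hmove _ h7 h8, h9, h10⟩
  unfold InP InS stepL
  apply cut_mem
  · apply cut_mem
    · apply cut_mem
      · apply cut_mem
        · apply cut_mem
          · apply cut_mem
            · apply cut_mem
              · apply cut_mem
                · rw [testBit_sdf, Bool.and_eq_true, notB]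
                  exact ⟨hv, hsafe⟩
                · intro h
                  obtain ⟨h1, h2, h3⟩ := key 5 4 (by norm_num) (by norm_num) (by norm_num)
                    (by norm_num) (by norm_num) h
                  exact goE_mem hX hY (by omega) h1
              · intro h
                obtain ⟨h1, h2, h3⟩ := key 3 4 (by norm_num) (by norm_num) (by norm_num)
                  (by norm_num) (by norm_num) h
                rw [show u + 3 - 4 = u - 1 by omega] at h1 h2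
                exact goW_mem hX hY (by omega) h1
            · intro h
              obtain ⟨h1, h2, h3⟩ := key 4 5 (by norm_num) (by norm_num) (by norm_num)
                (by norm_num) (by norm_num) h
              exact goN_mem hX hY (by omega) h1
          · intro h
            obtain ⟨h1, h2, h3⟩ := key 4 3 (by norm_num) (by norm_num) (by norm_num)
              (by norm_num) (by norm_num) h
            rw [show v + 3 - 4 = v - 1 by omega] at h1 h3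
            exact goS_mem hX hY (by omega) h1
        · intro h
          obtain ⟨h1, h2, h3⟩ := key 5 5 (by norm_num) (by norm_num) (by norm_num)
            (by norm_num) (by norm_num) h
          exact goE_mem hX hY (by omega) (goN_mem hX hY (by omega) h1)
      · intro h
        obtain ⟨h1, h2, h3⟩ := key 3 5 (by norm_num) (by norm_num) (by norm_num)
          (by norm_num) (by norm_num) h
        rw [show u + 3 - 4 = u - 1 by omega] at h1 h2
        exact goW_mem hX hY (by omega) (goN_mem hX hY (by omega) h1)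
    · intro h
      obtain ⟨h1, h2, h3⟩ := key 5 3 (by norm_num) (by norm_num) (by norm_num)
        (by norm_num) (by norm_num) h
      rw [show v + 3 - 4 = v - 1 by omega] at h1 h3
      exact goE_mem hX hY (by omega) (goS_mem hX hY (by omega) h1)
  · intro h
    obtain ⟨h1, h2, h3⟩ := key 3 3 (by norm_num) (by norm_num) (by norm_num)
      (by norm_num) (by norm_num) h
    rw [show u + 3 - 4 = u - 1 by omega] at h1 h2
    rw [show v + 3 - 4 = v - 1 by omega] at h1 h3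
    exact goW_mem hX hY (by omega) (goS_mem hX hY (by omega) h1)

end

end Pool.Agent.Helper62.KRK
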