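import Pool.Agent.Helper62.KRK.Game

/-!
# White cannot win too fast
-/

namespace Pool.Agent.Helper62.KRK

section
variable {B : Board} {X0 Y0 : ℕ} {fx fy : Bool}

theorem stepK_mem (hB : Like B X0 Y0 fx fy) {L : ℕ} {k k' r b : Sq} (hs : KingStep k k')
    (h : InP X0 Y0 L ⟨k', r, b⟩) : InP X0 Y0 (stepK X0 Y0 L) ⟨k, r, b⟩ := by
  have hX := hB.hX
  have hY := hB.hY
  obtain ⟨a1, a2⟩ := k
  obtain ⟨c1, c2⟩ := k'
  have hor : ∀ (A C : ℕ) (p : Pos), InP X0 Y0 A p ∨ InP X0 Y0 C p → InP X0 Y0 (A ||| C) p := by
    intro A C p h1
    unfold InP InS at *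
    rw [Nat.testBit_or, Bool.or_eq_true]
    exact h1
  obtain ⟨n1, n2, n3, n4, n5⟩ := hs
  simp only [ne_eq, Prod.mk.injEq] at n1 n2 n3 n4 n5
  have hx : c1 = a1 ∨ c1 = a1 + 1 ∨ a1 = c1 + 1 := by omega
  have hy : c2 = a2 ∨ c2 = a2 + 1 ∨ a2 = c2 + 1 := by omega
  unfold stepK
  rcases hx with hx | hx | hx <;> rcases hy with hy | hy | hy <;> subst hx <;> subst hy
  · omega
  · exact hor _ _ _ (Or.inr (hor _ _ _ (Or.inr (hor _ _ _ (Or.inl (kN_mem hX hY h))))))
  · exact hor _ _ _ (Or.inr (hor _ _ _ (Or.inr (hor _ _ _ (Or.inr (hor _ _ _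
      (Or.inl (kS_mem hX hY h))))))))
  · exact hor _ _ _ (Or.inl (kE_mem hX hY h))
  · exact hor _ _ _ (Or.inr (hor _ _ _ (Or.inr (hor _ _ _ (Or.inr (hor _ _ _
      (Or.inr (hor _ _ _ (Or.inl (kN_mem hX hY (kE_mem hX hY h)))))))))))
  · exact hor _ _ _ (Or.inr (hor _ _ _ (Or.inr (hor _ _ _ (Or.inr (hor _ _ _
      (Or.inr (hor _ _ _ (Or.inr (hor _ _ _ (Or.inl (kS_mem hX hY (kE_mem hX hY h)))))))))))))
  · exact hor _ _ _ (Or.inr (hor _ _ _ (Or.inl (kW_mem hX hY h))))
  · exact hor _ _ _ (Or.inr (hor _ _ _ (Or.inr (hor _ _ _ (Or.inr (hor _ _ _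
      (Or.inr (hor _ _ _ (Or.inr (hor _ _ _ (Or.inr (hor _ _ _
        (Or.inl (kN_mem hX hY (kW_mem hX hY h)))))))))))))))
  · exact hor _ _ _ (Or.inr (hor _ _ _ (Or.inr (hor _ _ _ (Or.inr (hor _ _ _
      (Or.inr (hor _ _ _ (Or.inr (hor _ _ _ (Or.inr (hor _ _ _
        (Or.inr (kS_mem hX hY (kW_mem hX hY h)))))))))))))))

/-- Sliding of the rook: `σ` is the unit step. -/
theorem slide_mem (hB : Like B X0 Y0 fx fy) {P : ℕ → ℕ} {σ : Sq → Sq} {k b : Sq} {L T : ℕ}
    (hP : ∀ S r, Good B ⟨k, r, b⟩ → B.Mem (σ r) → InP X0 Y0 S ⟨k, σ r, b⟩ →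
      InP X0 Y0 (P S) ⟨k, r, b⟩)
    (hT : okS P (valid X0 Y0 fx fy) L T = true) :
    ∀ n r, (∀ j ≤ n, Good B ⟨k, σ^[j] r, b⟩) → B.Mem (σ^[n + 1] r) →
      InP X0 Y0 L ⟨k, σ^[n + 1] r, b⟩ → InP X0 Y0 T ⟨k, r, b⟩ := by
  have hcl : ∀ p, InP X0 Y0 (P (L ||| (T &&& valid X0 Y0 fx fy))) p → InP X0 Y0 T p := by
    intro p hp
    unfold okS at hT
    rw [beqN] at hT
    rw [← hT]
    unfold InP InS at *
    rw [Nat.testBit_or, hp]
    rfl
  intro n
  induction n with
  | zero =>
    intro r hg hm hL
    have h0 : Good B ⟨k, r, b⟩ := hg 0 le_rfl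
    apply hcl
    apply hP _ r h0
    · exact hm
    · unfold InP InS at *
      rw [Nat.testBit_or, Bool.or_eq_true]
      exact Or.inl hL
  | succ n ih =>
    intro r hg hm hL
    have h1 : InP X0 Y0 T ⟨k, σ r, b⟩ := by
      apply ih (σ r)
      · intro j hj
        have := hg (j + 1) (by omega)
        rwa [Function.iterate_succ_apply] at this
      · rwa [Function.iterate_succ_apply] at hm
      · rwa [Function.iterate_succ_apply] at hL
    have hg1 := hg 1 (by omega)
    have h2 := valid_mem hB hg1
    rw [Function.iterate_one] at h2 hg1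
    have h0 : Good B ⟨k, r, b⟩ := hg 0 (by omega)
    apply hcl
    apply hP _ r h0
    · exact hg1.hr
    · unfold InP InS at *
      rw [Nat.testBit_or, Nat.testBit_and, Bool.or_eq_true, Bool.and_eq_true]
      exact Or.inr ⟨h1, h2⟩

theorem iterE (n : ℕ) (r : Sq) : (fun s : Sq => (s.1 + 1, s.2))^[n] r = (r.1 + n, r.2) := by
  induction n with
  | zero => simp
  | succ n ih => rw [Function.iterate_succ_apply', ih]; ext <;> simp; omega

theorem iterN (n : ℕ) (r : Sq) : (fun s : Sq => (s.1, s.2 + 1))^[n] r = (r.1, r.2 + n) := by
  induction n with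
  | zero => simp
  | succ n ih => rw [Function.iterate_succ_apply', ih]; ext <;> simp; omega

theorem iterW (n : ℕ) (r : Sq) : (fun s : Sq => (s.1 - 1, s.2))^[n] r = (r.1 - n, r.2) := by
  induction n with
  | zero => simp
  | succ n ih => rw [Function.iterate_succ_apply', ih]; ext <;> simp; omega

theorem iterS (n : ℕ) (r : Sq) : (fun s : Sq => (s.1, s.2 - 1))^[n] r = (r.1, r.2 - n) := by
  induction n with
  | zero => simp
  | succ n ih => rw [Function.iterate_succ_apply', ih]; ext <;> simp; omega

/-- One round: positions (White to move) from which White can move to a lost position. -/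
theorem round_mem (hB : Like B X0 Y0 fx fy) {W : ℕ} {R : Pos → Prop}
    (hW : ∀ p, Good B p → R p → InP X0 Y0 W p) {kf : ℕ → Bool}
    (hr : round X0 Y0 fx fy kf W = true) :
    ∃ W', kf W' = true ∧
      ∀ p q, Good B p → WhiteMove B p q → Lost B R q → InP X0 Y0 W' p := by
  have hX := hB.hX
  have hY := hB.hY
  unfold round at hr
  simp only at hr
  generalize hL' : stepL X0 Y0 fx fy W = L at hr
  generalize slide (upC X0 Y0) (valid X0 Y0 fx fy) L 9 = T1 at hr
  generalize slide (dnC X0 Y0) (valid X0 Y0 fx fy) L 9 = T2 at hr
  generalize slide (upD X0 Y0) (valid X0 Y0 fx fy) L 9 = T3 at hr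
  generalize slide (dnD X0 Y0) (valid X0 Y0 fx fy) L 9 = T4 at hr
  unfold ok4 at hr
  simp only [Bool.and_eq_true] at hr
  obtain ⟨⟨o1, o2, o3, o4⟩, hk⟩ := hr
  refine ⟨_, hk, ?_⟩
  intro p q hp hpq hlost
  have hor : ∀ (A C : ℕ) (p : Pos), InP X0 Y0 A p ∨ InP X0 Y0 C p → InP X0 Y0 (A ||| C) p := by
    intro A C p h1
    unfold InP InS at *
    rw [Nat.testBit_or, Bool.or_eq_true]
    exact h1
  obtain ⟨k, r, b⟩ := p
  obtain ⟨k', r', b'⟩ := q
  obtain ⟨hb, hcase⟩ := hpq
  simp only at hb hcase
  subst hb
  rcases hcase with ⟨e, hst, hm, hn1, hn2, hn3⟩ | ⟨e, hln, hm, hn1, hn2, hb1, hb2⟩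
  · -- king move
    subst e
    have hq : Good B ⟨k', r', b'⟩ := by
      refine ⟨hm, hp.hr, hp.hb, ?_, hp.rb, fun h => hn1 h.symm⟩
      intro h
      apply hn3
      exact ⟨hn2, h.1, h.2.1, h.2.2.1, h.2.2.2⟩
    have hin : InP X0 Y0 L ⟨k', r', b'⟩ := by
      rw [← hL']
      exact stepL_mem hB hW hq hlost
    exact hor _ _ _ (Or.inl (stepK_mem hB hst hin))
  · -- rook move
    subst e
    have hgood : ∀ t : Sq, B.Mem t → t ≠ k' → t ≠ b' → Good B ⟨k', t, b'⟩ := by
      intro t h1 h2 h3
      exact ⟨hp.hk, h1, hp.hb, hp.near, h3, h2⟩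
    have hq : Good B ⟨k', r', b'⟩ := hgood r' hm hn1 hn2
    have hin : InP X0 Y0 L ⟨k', r', b'⟩ := by
      rw [← hL']
      exact stepL_mem hB hW hq hlost
    have hrm := hp.hr
    have hrk := hp.rk
    have hrb := hp.rb
    simp only at hrm hrk hrb
    rw [hB.mem] at hrm
    have hm' := hm
    rw [hB.mem] at hm'
    obtain ⟨r1, r2⟩ := r
    obtain ⟨s1, s2⟩ := r'
    obtain ⟨hne, hl⟩ := hln
    simp only [ne_eq, Prod.mk.injEq] at hne hl hrm hm'
    apply hor
    right
    rcases hl with hl | hl
    · -- same file
      subst hl
      rcases Nat.lt_or_ge r2 s2 with hlt | hge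
      · apply hor; right; apply hor; right; apply hor; left
        obtain ⟨n, hn⟩ := Nat.exists_eq_add_of_lt hlt
        apply slide_mem (σ := fun s : Sq => (s.1, s.2 + 1)) hB _ o3 n (r1, r2)
        · intro j hj
          rw [iterN]
          rcases Nat.eq_zero_or_pos j with h0 | h0
          · subst h0
            exact hp
          · apply hgood
            · rw [hB.mem]
              refine ⟨hrm.1, by simp only; omega, hrm.2.2.1, fun h => ?_⟩
              have := hm'.2.2.2 h
              simp only
              omega
            · intro h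
              apply hb1
              left
              rw [← h]
              exact ⟨rfl, rfl, Or.inl ⟨by simp only; omega, by simp only; omega⟩⟩
            · intro h
              apply hb2
              left
              rw [← h]
              exact ⟨rfl, rfl, Or.inl ⟨by simp only; omega, by simp only; omega⟩⟩
        · rw [iterN]
          simp only
          rw [show r2 + (n + 1) = s2 by omega]
          exact hm
        · rw [iterN]
          simp only
          rw [show r2 + (n + 1) = s2 by omega]
          exact hin
        · intro S t h1 h2 h3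
          exact rN_mem hX hY h3
      · apply hor; right; apply hor; right; apply hor; right
        have hlt : s2 < r2 := by omega
        obtain ⟨n, hn⟩ := Nat.exists_eq_add_of_lt hlt
        apply slide_mem (σ := fun s : Sq => (s.1, s.2 - 1)) hB _ o4 n (r1, r2)
        · intro j hj
          rw [iterS]
          rcases Nat.eq_zero_or_pos j with h0 | h0
          · subst h0
            exact hp
          · apply hgood
            · rw [hB.mem]
              refine ⟨hrm.1, by simp only; omega, hrm.2.2.1, fun h => ?_⟩
              have := hrm.2.2.2 h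
              simp only
              omega
            · intro h
              apply hb1
              left
              rw [← h]
              exact ⟨rfl, rfl, Or.inr ⟨by simp only; omega, by simp only; omega⟩⟩
            · intro h
              apply hb2
              left
              rw [← h]
              exact ⟨rfl, rfl, Or.inr ⟨by simp only; omega, by simp only; omega⟩⟩
        · rw [iterS]
          simp only
          rw [show r2 - (n + 1) = s2 by omega]
          exact hm
        · rw [iterS]
          simp only
          rw [show r2 - (n + 1) = s2 by omega]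
          exact hin
        · intro S t h1 h2 h3
          obtain ⟨t1, t2⟩ := t
          have h4 := h2.2.1
          simp only at h3 h4
          have h5 := rS_mem hX hY h3
          rwa [show t2 - 1 + 1 = t2 by omega] at h5
    · -- same rank
      subst hl
      rcases Nat.lt_or_ge r1 s1 with hlt | hge
      · apply hor; left
        obtain ⟨n, hn⟩ := Nat.exists_eq_add_of_lt hlt
        apply slide_mem (σ := fun s : Sq => (s.1 + 1, s.2)) hB _ o1 n (r1, r2)
        · intro j hj
          rw [iterE]
          rcases Nat.eq_zero_or_pos j with h0 | h0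
          · subst h0
            exact hp
          · apply hgood
            · rw [hB.mem]
              refine ⟨by simp only; omega, hrm.2.1, fun h => ?_, hrm.2.2.2⟩
              have := hm'.2.2.1 h
              simp only
              omega
            · intro h
              apply hb1
              right
              rw [← h]
              exact ⟨rfl, rfl, Or.inl ⟨by simp only; omega, by simp only; omega⟩⟩
            · intro h
              apply hb2
              right
              rw [← h]
              exact ⟨rfl, rfl, Or.inl ⟨by simp only; omega, by simp only; omega⟩⟩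
        · rw [iterE]
          simp only
          rw [show r1 + (n + 1) = s1 by omega]
          exact hm
        · rw [iterE]
          simp only
          rw [show r1 + (n + 1) = s1 by omega]
          exact hin
        · intro S t h1 h2 h3
          exact rE_mem hX hY h3
      · apply hor; right; apply hor; left
        have hlt : s1 < r1 := by omega
        obtain ⟨n, hn⟩ := Nat.exists_eq_add_of_lt hlt
        apply slide_mem (σ := fun s : Sq => (s.1 - 1, s.2)) hB _ o2 n (r1, r2)
        · intro j hj
          rw [iterW]
          rcases Nat.eq_zero_or_pos j with h0 | h0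
          · subst h0
            exact hp
          · apply hgood
            · rw [hB.mem]
              refine ⟨by simp only; omega, hrm.2.1, fun h => ?_, hrm.2.2.2⟩
              have := hrm.2.2.1 h
              simp only
              omega
            · intro h
              apply hb1
              right
              rw [← h]
              exact ⟨rfl, rfl, Or.inr ⟨by simp only; omega, by simp only; omega⟩⟩
            · intro h
              apply hb2
              right
              rw [← h]
              exact ⟨rfl, rfl, Or.inr ⟨by simp only; omega, by simp only; omega⟩⟩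
        · rw [iterW]
          simp only
          rw [show r1 - (n + 1) = s1 by omega]
          exact hm
        · rw [iterW]
          simp only
          rw [show r1 - (n + 1) = s1 by omega]
          exact hin
        · intro S t h1 h2 h3
          obtain ⟨t1, t2⟩ := t
          have h4 := h2.1
          simp only at h3 h4
          have h5 := rW_mem hX hY h3
          rwa [show t1 - 1 + 1 = t1 by omega] at h5

theorem good_start (hB : Like B X0 Y0 fx fy) : Good B start := by
  have hX := hB.hX
  have hY := hB.hY
  constructor
  · rw [hB.mem]; unfold start; simp only; omega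
  · rw [hB.mem]; unfold start; simp only; omega
  · rw [hB.mem]; unfold start; simp only; omega
  · unfold start; simp
  · unfold start; simp
  · unfold start; simp

theorem not_start (hB : Like B X0 Y0 fx fy) {W : ℕ} (h : (!(W.testBit (stIx Y0))) = true) :
    ¬ InP X0 Y0 W start := by
  have hX := hB.hX
  have hY := hB.hY
  rw [notB] at h
  intro h1
  apply h
  unfold InP InS at h1
  unfold stIx
  rw [show (min start.bk.1 X0 - 1) = 2 by unfold start; simp only; omega,
    show (min start.bk.2 Y0 - 1) = 2 by unfold start; simp only; omega] at h1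
  exact h1

/-- If the computation of `n` rounds does not reach the start, White cannot win in `n` moves. -/
theorem chk_sound (hB : Like B X0 Y0 fx fy) : ∀ (n k W : ℕ),
    (∀ p, Good B p → WinIn B k p → InP X0 Y0 W p) → chk X0 Y0 fx fy n W = true →
    ¬ WinIn B (k + n) start := by
  intro n
  induction n with
  | zero =>
    intro k W hW h
    have h' : (!(W.testBit (stIx Y0))) = true := h
    intro hw
    exact not_start hB h' (hW _ (good_start hB) hw)
  | succ n ih =>
    intro k W hW h
    have h' : round X0 Y0 fx fy (chk X0 Y0 fx fy n) W = true := h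
    obtain ⟨W', h1, h2⟩ := round_mem hB hW h'
    have := ih (k + 1) W' (by
      intro p hp hw
      obtain ⟨q, hq1, hq2⟩ := hw
      exact h2 p q hp hq1 hq2) h1
    rwa [show k + 1 + n = k + (n + 1) by ring] at this

theorem chk_sound0 (hB : Like B X0 Y0 fx fy) {n : ℕ} (h : chk X0 Y0 fx fy n 0 = true) :
    ¬ WinIn B n start := by
  have := chk_sound hB n 0 0 (fun p _ hp => hp.elim) h
  rwa [zero_add] at this

/-- If the computed set is closed and does not contain the start, White cannot win at all. -/
theorem chkFix_sound (hB : Like B X0 Y0 fx fy) {n W : ℕ}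
    (h : chkFix X0 Y0 fx fy n W = true) : ¬ Wins B start := by
  induction n generalizing W with
  | zero =>
    have h' : ((!(W.testBit (stIx Y0))) && round X0 Y0 fx fy (fun W' => Nat.beq (W' ||| W) W) W)
        = true := h
    rw [Bool.and_eq_true] at h'
    obtain ⟨h1, h2⟩ := h'
    obtain ⟨W', h3, h4⟩ := round_mem hB (R := fun p => InP X0 Y0 W p) (fun p _ hp => hp) h2
    rw [beqN] at h3
    have key : ∀ p, Wins B p → Good B p → InP X0 Y0 W p := by
      intro p hp
      have up : ∀ p', InP X0 Y0 W' p' → InP X0 Y0 W p' := by
        intro p' hp'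
        rw [← h3]
        unfold InP InS at *
        rw [Nat.testBit_or, hp']
        rfl
      induction hp with
      | mate p q hpq hm =>
        intro hg
        exact up _ (h4 p q hg hpq (Or.inl hm))
      | move p q hpq he hex hnr _ ih =>
        intro hg
        apply up
        apply h4 p q hg hpq
        right
        refine ⟨he, hex, fun s hs => ⟨hnr s hs, ?_⟩⟩
        apply ih s hs
        have hq : Good B q := by
          obtain ⟨hb, hcase⟩ := hpq
          obtain ⟨k', r', b'⟩ := q
          simp only at hb hcase
          subst hb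
          rcases hcase with ⟨e, hst, hm, hn1, hn2, hn3⟩ | ⟨e, hln, hm, hn1, hn2, hb1, hb2⟩
          · subst e
            refine ⟨hm, hg.hr, hg.hb, ?_, hg.rb, fun h => hn1 h.symm⟩
            intro h
            apply hn3
            exact ⟨hn2, h.1, h.2.1, h.2.2.1, h.2.2.2⟩
          · subst e
            exact ⟨hg.hk, hm, hg.hb, hg.near, hn2, hn1⟩
        exact good_black hB hq hs (hnr s hs)
    intro hw
    exact not_start hB h1 (key _ hw (good_start hB))
  | succ n ih =>
    have h' : round X0 Y0 fx fy (chkFix X0 Y0 fx fy n) W = true := h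
    unfold round at h'
    simp only [Bool.and_eq_true] at h'
    exact ih h'.2

end

end Pool.Agent.Helper62.KRK
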