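import Pool.Agent.Helper62.KRK.Defs

/-!
# Monotonicity and symmetry of the game
-/

namespace Pool.Agent.Helper62.KRK

theorem winIn_succ {B : Board} {N : ℕ} {p : Pos} (h : WinIn B N p) : WinIn B (N + 1) p := by
  induction N generalizing p with
  | zero => exact h.elim
  | succ N ih =>
    obtain ⟨q, hq, h1 | ⟨h1, h2, h3⟩⟩ := h
    · exact ⟨q, hq, Or.inl h1⟩
    · exact ⟨q, hq, Or.inr ⟨h1, h2, fun s hs => ⟨(h3 s hs).1, ih (h3 s hs).2⟩⟩⟩

theorem winIn_mono {B : Board} {M N : ℕ} (hMN : M ≤ N) {p : Pos} (h : WinIn B M p) :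
    WinIn B N p := by
  induction hMN with
  | refl => exact h
  | step _ ih => exact winIn_succ ih

theorem wins_of_winIn {B : Board} {N : ℕ} {p : Pos} (h : WinIn B N p) : Wins B p := by
  induction N generalizing p with
  | zero => exact h.elim
  | succ N ih =>
    obtain ⟨q, hq, h1 | ⟨h1, h2, h3⟩⟩ := h
    · exact Wins.mate p q hq h1
    · exact Wins.move p q hq h1 h2 (fun s hs => (h3 s hs).1) (fun s hs => ih (h3 s hs).2)

/-! ### Larger boards -/

theorem lt_of_not_exit {B : Board} {q : Pos} (hb : B.Mem q.bk) (hne : ¬ CanExit B q) :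
    (q.bk.1 : ℕ∞) < B.files ∧ (q.bk.2 : ℕ∞) < B.ranks :=
  ⟨lt_of_le_of_ne hb.2.2.1 (fun h => hne (Or.inl h)),
    lt_of_le_of_ne hb.2.2.2 (fun h => hne (Or.inr h))⟩

theorem mem_mono {B B' : Board} (h1 : B.files ≤ B'.files) (h2 : B.ranks ≤ B'.ranks) {s : Sq}
    (h : B.Mem s) : B'.Mem s :=
  ⟨h.1, h.2.1, h.2.2.1.trans h1, h.2.2.2.trans h2⟩

theorem black_iff {B B' : Board} (h1 : B.files ≤ B'.files) (h2 : B.ranks ≤ B'.ranks) {q : Pos}
    (hb : B.Mem q.bk) (hne : ¬ CanExit B q) (s : Sq) : BlackMove B q s ↔ BlackMove B' q s := by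
  obtain ⟨hx, hy⟩ := lt_of_not_exit hb hne
  constructor
  · rintro ⟨m1, m2, m3⟩
    exact ⟨m1, mem_mono h1 h2 m2, m3⟩
  · rintro ⟨m1, m2, m3⟩
    refine ⟨m1, ⟨m2.1, m2.2.1, ?_, ?_⟩, m3⟩
    · have h3 : s.1 ≤ q.bk.1 + 1 := m1.2.2.1
      have h4 : (q.bk.1 : ℕ∞) + 1 ≤ B.files := Order.add_one_le_of_lt hx
      refine le_trans ?_ h4
      exact_mod_cast h3
    · have h3 : s.2 ≤ q.bk.2 + 1 := m1.2.2.2.2
      have h4 : (q.bk.2 : ℕ∞) + 1 ≤ B.ranks := Order.add_one_le_of_lt hy
      refine le_trans ?_ h4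
      exact_mod_cast h3

theorem exit_mono {B B' : Board} (h1 : B.files ≤ B'.files) (h2 : B.ranks ≤ B'.ranks) {q : Pos}
    (hb : B.Mem q.bk) (hne : ¬ CanExit B q) : ¬ CanExit B' q := by
  obtain ⟨hx, hy⟩ := lt_of_not_exit hb hne
  rintro (h | h)
  · exact absurd h (ne_of_lt (hx.trans_le h1))
  · exact absurd h (ne_of_lt (hy.trans_le h2))

theorem white_mono {B B' : Board} (h1 : B.files ≤ B'.files) (h2 : B.ranks ≤ B'.ranks) {p q : Pos}
    (h : WhiteMove B p q) : WhiteMove B' p q := by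
  obtain ⟨hb, hc⟩ := h
  refine ⟨hb, ?_⟩
  rcases hc with ⟨e, hst, hm, hr⟩ | ⟨e, hln, hm, hr⟩
  · exact Or.inl ⟨e, hst, mem_mono h1 h2 hm, hr⟩
  · exact Or.inr ⟨e, hln, mem_mono h1 h2 hm, hr⟩

/-- A win on a board is a win on every larger board. -/
theorem wins_mono {B B' : Board} (h1 : B.files ≤ B'.files) (h2 : B.ranks ≤ B'.ranks) {p : Pos}
    (hw : Wins B p) (hb : B.Mem p.bk) : Wins B' p := by
  induction hw with
  | mate p q hpq hm =>
    have hq : B.Mem q.bk := by rw [hpq.1]; exact hb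
    refine Wins.mate p q (white_mono h1 h2 hpq) ⟨hm.1, exit_mono h1 h2 hq hm.2.1, ?_⟩
    intro s hs
    exact hm.2.2 s ((black_iff h1 h2 hq hm.2.1 s).2 hs)
  | move p q hpq he hex hnr _ ih =>
    have hq : B.Mem q.bk := by rw [hpq.1]; exact hb
    obtain ⟨s, hs⟩ := hex
    refine Wins.move p q (white_mono h1 h2 hpq) (exit_mono h1 h2 hq he)
      ⟨s, (black_iff h1 h2 hq he s).1 hs⟩ ?_ ?_
    · intro s hs
      exact hnr s ((black_iff h1 h2 hq he s).2 hs)
    · intro s hs
      have hs' := (black_iff h1 h2 hq he s).2 hs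
      exact ih s hs' hs'.2.1

/-! ### Reflection in the diagonal -/

def Board.flip (B : Board) : Board := ⟨B.ranks, B.files⟩
def Pos.flip (p : Pos) : Pos := ⟨p.wk.swap, p.wr.swap, p.bk.swap⟩

theorem Pos.flip_flip (p : Pos) : p.flip.flip = p := rfl
theorem Board.flip_flip (B : Board) : B.flip.flip = B := rfl

theorem ne_flip {a b : Sq} : a.swap ≠ b.swap ↔ a ≠ b := by
  rw [ne_eq, ne_eq, Prod.swap_inj]

theorem mem_flip {B : Board} {s : Sq} (h : B.Mem s) : B.flip.Mem s.swap :=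
  ⟨h.2.1, h.1, h.2.2.2, h.2.2.1⟩

theorem mem_flip_iff {B : Board} {s : Sq} : B.flip.Mem s.swap ↔ B.Mem s :=
  ⟨fun h => mem_flip h, mem_flip⟩

theorem kingStep_flip {a b : Sq} : KingStep a.swap b.swap ↔ KingStep a b := by
  unfold KingStep
  rw [ne_flip]
  simp only [Prod.fst_swap, Prod.snd_swap]
  tauto

theorem line_flip {a b : Sq} : Line a.swap b.swap ↔ Line a b := by
  unfold Line
  rw [ne_flip]
  simp only [Prod.fst_swap, Prod.snd_swap]
  tauto

theorem between_flip {a b c : Sq} : Between a.swap b.swap c.swap ↔ Between a b c := by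
  unfold Between
  simp only [Prod.fst_swap, Prod.snd_swap]
  tauto

theorem rookHits_flip {a b c : Sq} : RookHits a.swap b.swap c.swap ↔ RookHits a b c := by
  unfold RookHits
  rw [line_flip, between_flip]

theorem white_flip {B : Board} {p q : Pos} (h : WhiteMove B p q) :
    WhiteMove B.flip p.flip q.flip := by
  obtain ⟨hb, hc⟩ := h
  refine ⟨congrArg Prod.swap hb, ?_⟩
  rcases hc with ⟨e, h1, h2, h3, h4, h5⟩ | ⟨e, h1, h2, h3, h4, h5, h6⟩
  · left
    refine ⟨congrArg Prod.swap e, kingStep_flip.2 h1, mem_flip h2, ne_flip.2 h3, ne_flip.2 h4, ?_⟩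
    exact fun h => h5 (kingStep_flip.1 h)
  · right
    refine ⟨congrArg Prod.swap e, line_flip.2 h1, mem_flip h2, ne_flip.2 h3, ne_flip.2 h4, ?_, ?_⟩
    · exact fun h => h5 (between_flip.1 h)
    · exact fun h => h6 (between_flip.1 h)

theorem black_flip {B : Board} {q : Pos} {s : Sq} (h : BlackMove B q s) :
    BlackMove B.flip q.flip s.swap := by
  obtain ⟨h1, h2, h3, h4, h5⟩ := h
  refine ⟨kingStep_flip.2 h1, mem_flip h2, ne_flip.2 h3, fun h => h4 (kingStep_flip.1 h), ?_⟩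
  rcases h5 with h5 | h5
  · exact Or.inl (congrArg Prod.swap h5)
  · exact Or.inr (fun h => h5 (rookHits_flip.1 h))

theorem black_flip' {B : Board} {q : Pos} {s : Sq} (h : BlackMove B.flip q.flip s) :
    BlackMove B q s.swap := by
  have := black_flip h
  exact this

theorem exit_flip {B : Board} {q : Pos} (h : CanExit B q) : CanExit B.flip q.flip :=
  h.symm

theorem mate_flip {B : Board} {q : Pos} (h : Checkmate B q) : Checkmate B.flip q.flip := by
  obtain ⟨h1, h2, h3⟩ := h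
  refine ⟨rookHits_flip.2 h1, fun h => h2 (exit_flip h), ?_⟩
  intro s hs
  exact h3 _ (black_flip' hs)

theorem winIn_flip {B : Board} {N : ℕ} {p : Pos} (h : WinIn B N p) : WinIn B.flip N p.flip := by
  induction N generalizing p with
  | zero => exact h.elim
  | succ N ih =>
    obtain ⟨q, hq, h1 | ⟨h1, ⟨s, h2⟩, h3⟩⟩ := h
    · exact ⟨q.flip, white_flip hq, Or.inl (mate_flip h1)⟩
    · refine ⟨q.flip, white_flip hq, Or.inr ⟨fun h => h1 (exit_flip h), ⟨_, black_flip h2⟩, ?_⟩⟩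
      intro s hs
      have h4 := h3 _ (black_flip' hs)
      refine ⟨?_, ?_⟩
      · intro h5
        apply h4.1
        rw [h5]
        rfl
      · have := ih h4.2
        exact this

theorem wins_flip {B : Board} {p : Pos} (h : Wins B p) : Wins B.flip p.flip := by
  induction h with
  | mate p q hpq hm => exact Wins.mate _ _ (white_flip hpq) (mate_flip hm)
  | move p q hpq he hex hnr _ ih =>
    obtain ⟨s, hs⟩ := hex
    refine Wins.move _ _ (white_flip hpq) (fun h => he (exit_flip h)) ⟨_, black_flip hs⟩ ?_ ?_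
    · intro s hs h5
      apply hnr _ (black_flip' hs)
      rw [h5]
      rfl
    · intro s hs
      have := ih _ (black_flip' hs)
      exact this

end Pool.Agent.Helper62.KRK
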