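import Pool.Agent.Helper62.KRK.Lower

/-!
# Boards on which White cannot win
-/

namespace Pool.Agent.Helper62.KRK

set_option maxRecDepth 100000 in
theorem chk10 : chkFix 10 10 true true 43 0 = true := by decide +kernel

set_option maxRecDepth 100000 in
theorem chk8 : chkFix 8 8 true false 36 0 = true := by decide +kernel

theorem like10 : Like ⟨10, 10⟩ 10 10 true true where
  mem := by
    intro s
    unfold Board.Mem
    simp only [true_implies]
    have e1 : ((s.1 : ℕ∞) ≤ 10) ↔ s.1 ≤ 10 := by exact_mod_cast Iff.rfl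
    have e2 : ((s.2 : ℕ∞) ≤ 10) ↔ s.2 ≤ 10 := by exact_mod_cast Iff.rfl
    rw [e1, e2]
  exit := by
    intro q
    unfold CanExit
    have e1 : ((q.bk.1 : ℕ∞) = 10) ↔ q.bk.1 = 10 := by exact_mod_cast Iff.rfl
    have e2 : ((q.bk.2 : ℕ∞) = 10) ↔ q.bk.2 = 10 := by exact_mod_cast Iff.rfl
    simp only [true_and]
    rw [e1, e2]
  hX := by norm_num
  hY := by norm_num

theorem like8 : Like ⟨8, ⊤⟩ 8 8 true false where
  mem := by
    intro s
    unfold Board.Mem
    have e1 : ((s.1 : ℕ∞) ≤ 8) ↔ s.1 ≤ 8 := by exact_mod_cast Iff.rfl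
    simp [e1]
  exit := by
    intro q
    unfold CanExit
    have e1 : ((q.bk.1 : ℕ∞) = 8) ↔ q.bk.1 = 8 := by exact_mod_cast Iff.rfl
    simp [e1]
  hX := by norm_num
  hY := by norm_num

/-- White cannot win on the board with ten files and ten ranks. -/
theorem not_wins10 : ¬ Wins ⟨10, 10⟩ start := chkFix_sound like10 chk10

/-- White cannot win on the board with eight files and unboundedly many ranks. -/
theorem not_wins8 : ¬ Wins ⟨8, ⊤⟩ start := chkFix_sound like8 chk8

end Pool.Agent.Helper62.KRK
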