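import Pool.Agent.Helper62.KRK.Lower

/-!
# Thirty-eight moves are not enough on the unbounded board
-/

namespace Pool.Agent.Helper62.KRK

set_option maxRecDepth 100000 in
theorem chkQ : chk 10 10 false false 38 0 = true := by decide +kernel

theorem likeQ : Like ⟨⊤, ⊤⟩ 10 10 false false where
  mem := by
    intro s
    unfold Board.Mem
    simp
  exit := by
    intro q
    unfold CanExit
    simp
  hX := by norm_num
  hY := by norm_num

/-- On the quarter-infinite board White cannot force checkmate within 38 moves. -/
theorem not_win38 : ¬ WinIn ⟨⊤, ⊤⟩ 38 start := chk_sound0 likeQ chkQ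

end Pool.Agent.Helper62.KRK
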