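import Pool.Agent.Helper62.KRK.Upper

/-!
# White wins in thirty-nine moves
-/

namespace Pool.Agent.Helper62.KRK

/-- The groups of the kings with numbers `a, ..., a + n - 1`. -/
def part (a n : ℕ) : Bool := allLt n (fun i => okKing tbl (a + i))

set_option maxRecDepth 100000 in
theorem part0 : part 0 25 = true := by decide +kernel
set_option maxRecDepth 100000 in
theorem part1 : part 25 25 = true := by decide +kernel
set_option maxRecDepth 100000 in
theorem part2 : part 50 25 = true := by decide +kernel
set_option maxRecDepth 100000 in
theorem part3 : part 75 24 = true := by decide +kernel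

theorem all_ok : ∀ k < 99, okKing tbl k = true := by
  intro k hk
  rcases Nat.lt_or_ge k 25 with h | h
  · have := allLt_elim part0 k h
    rwa [Nat.zero_add] at this
  rcases Nat.lt_or_ge k 50 with h' | h'
  · have := allLt_elim part1 (k - 25) (by omega)
    rwa [show 25 + (k - 25) = k by omega] at this
  rcases Nat.lt_or_ge k 75 with h'' | h''
  · have := allLt_elim part2 (k - 50) (by omega)
    rwa [show 50 + (k - 50) = k by omega] at this
  · have := allLt_elim part3 (k - 75) (by omega)
    rwa [show 75 + (k - 75) = k by omega] at this

theorem dep_start : dep (grp tbl 1 1 2 2) 3 3 = 39 := by decide +kernel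

/-- White wins within 39 moves on every board that contains the one with 9 files and 11 ranks. -/
theorem win39 {B : Board} (h1 : (9 : ℕ∞) ≤ B.files) (h2 : (11 : ℕ∞) ≤ B.ranks) :
    WinIn B 39 start :=
  table_sound ⟨h1, h2⟩ all_ok 39 (by decide) (by decide) (by norm_num) (by norm_num)
    (by rw [dep_start]; norm_num) (by rw [dep_start])

end Pool.Agent.Helper62.KRK
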