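import Pool.Agent.Helper62.KRK.Mono

/-!
# Sanity checks: the two formulations of a forced win agree
-/

namespace Pool.Agent.Helper62.KRK

/-- `Wins` holds if and only if `WinIn` holds for some number of moves. -/
theorem wins_iff_exists_winIn (B : Board) (p : Pos) : Wins B p ↔ ∃ N, WinIn B N p := by
  constructor
  · intro h
    induction h with
    | mate p q hpq hm => exact ⟨1, q, hpq, Or.inl hm⟩
    | move p q hpq he hex hnr _ ih =>
      have hN : ∃ N, ∀ s ∈ (Finset.range (q.bk.1 + 2) ×ˢ Finset.range (q.bk.2 + 2) : Finset Sq),
          BlackMove B q s → WinIn B N ⟨q.wk, q.wr, s⟩ := by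
        induction (Finset.range (q.bk.1 + 2) ×ˢ Finset.range (q.bk.2 + 2) : Finset Sq)
          using Finset.induction_on with
        | empty => exact ⟨0, by simp⟩
        | insert a t _ iht =>
          obtain ⟨N, hN⟩ := iht
          by_cases ha : BlackMove B q a
          · obtain ⟨M, hM⟩ := ih a ha
            refine ⟨max M N, ?_⟩
            intro s hs hb
            rcases Finset.mem_insert.1 hs with h1 | h1
            · rw [h1]; exact winIn_mono (le_max_left _ _) hM
            · exact winIn_mono (le_max_right _ _) (hN s h1 hb)
          · refine ⟨N, ?_⟩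
            intro s hs hb
            rcases Finset.mem_insert.1 hs with h1 | h1
            · rw [h1] at hb; exact absurd hb ha
            · exact hN s h1 hb
      obtain ⟨N, hN⟩ := hN
      refine ⟨N + 1, q, hpq, Or.inr ⟨he, hex, fun s hs => ⟨hnr s hs, hN s ?_ hs⟩⟩⟩
      have h1 := hs.1.2.2.1
      have h2 := hs.1.2.2.2.2
      rw [Finset.mem_product, Finset.mem_range, Finset.mem_range]
      omega
  · rintro ⟨N, hN⟩
    exact wins_of_winIn hN

end Pool.Agent.Helper62.KRK
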