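import Pool.Agent.Helper62.KRK.Step

/-!
# Soundness of the abstract game
-/

namespace Pool.Agent.Helper62.KRK

/-! ### Masks -/

theorem ones_lt : ones < 2 ^ 6561 := by
  unfold ones
  have : 0 < 2 ^ 6561 := by positivity
  omega

theorem testBit_ones {i : ℕ} (hi : i < 6561) : ones.testBit i = true := by
  unfold ones
  rw [Nat.testBit_two_pow_sub_one]
  simp [hi]

theorem bif_ones_lt (b : Bool) : (bif b then ones else 0) < 2 ^ 6561 := by
  cases b
  · simp
  · exact ones_lt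

theorem testBit_bif_ones (b : Bool) {i : ℕ} (hi : i < 6561) :
    (bif b then ones else 0).testBit i = b := by
  cases b
  · simp
  · exact testBit_ones hi

section
variable {X0 Y0 x y a b c d : ℕ}

theorem testBit_mX (P : ℕ → Bool) (hx : x < X0) (hy : y < Y0) (ha : a < 9) (hb : b < 9)
    (hc : c < 9) (hd : d < 9) : (mX X0 Y0 P).testBit (ix Y0 x y a b c d) = P x := by
  unfold mX
  rw [testBit_lift (fun x _ => bif_ones_lt (P x)) hx hy ha hb hc hd,
    testBit_bif_ones _ (ix4_lt ha hb hc hd)]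

theorem testBit_mY (P : ℕ → Bool) (hx : x < X0) (hy : y < Y0) (ha : a < 9) (hb : b < 9)
    (hc : c < 9) (hd : d < 9) : (mY X0 Y0 P).testBit (ix Y0 x y a b c d) = P y := by
  unfold mY
  rw [testBit_lift (fun _ y => bif_ones_lt (P y)) hx hy ha hb hc hd,
    testBit_bif_ones _ (ix4_lt ha hb hc hd)]

theorem testBit_mL (P : ℕ → ℕ → ℕ → ℕ → Bool) (hx : x < X0) (hy : y < Y0) (ha : a < 9)
    (hb : b < 9) (hc : c < 9) (hd : d < 9) :
    (mL X0 Y0 P).testBit (ix Y0 x y a b c d) = P a b c d := by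
  unfold mL
  rw [testBit_lift (fun _ _ => low_lt P) hx hy ha hb hc hd, testBit_low P ha hb hc hd]

theorem pw (w : ℕ) (b : Bool) : (bif b then 2 ^ w - 1 else 0) < 2 ^ w := by
  have : 0 < 2 ^ w := by positivity
  cases b
  · simpa using this
  · simp only [cond_true]; omega

theorem testBit_pw {w i : ℕ} (b : Bool) (hi : i < w) :
    (bif b then 2 ^ w - 1 else 0).testBit i = b := by
  cases b
  · simp
  · simp only [cond_true]
    rw [Nat.testBit_two_pow_sub_one]
    simp [hi]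

theorem secA_lt (P : ℕ → Bool) : secA P < 2 ^ 6561 :=
  tab_lt (w := 729) (F := fun a => bif P a then 2 ^ 729 - 1 else 0) (r := 9)
    (fun v _ => pw 729 (P v))

theorem testBit_secA (P : ℕ → Bool) (ha : a < 9) (hb : b < 9)
    (hc : c < 9) (hd : d < 9) : (secA P).testBit (ix4 a b c d) = P a := by
  unfold secA ix4
  rw [testBit_tab (fun v _ => pw 729 (P v)) a _ (by omega), testBit_pw _ (by omega)]
  simp [ha]

theorem secB_aux (P : ℕ → Bool) :
    tab 81 (fun b => bif P b then 2 ^ 81 - 1 else 0) 9 < 2 ^ 729 :=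
  tab_lt (w := 81) (F := fun b => bif P b then 2 ^ 81 - 1 else 0) (r := 9)
    (fun v _ => pw 81 (P v))

theorem secB_lt (P : ℕ → Bool) : secB P < 2 ^ 6561 :=
  tab_lt (w := 729) (F := fun _ => tab 81 (fun b => bif P b then 2 ^ 81 - 1 else 0) 9) (r := 9)
    (fun _ _ => secB_aux P)

theorem testBit_secB (P : ℕ → Bool) (ha : a < 9) (hb : b < 9)
    (hc : c < 9) (hd : d < 9) : (secB P).testBit (ix4 a b c d) = P b := by
  unfold secB ix4
  rw [testBit_tab (fun v _ => secB_aux P) a _ (by omega),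
    testBit_tab (fun v _ => pw 81 (P v)) b _ (by omega), testBit_pw _ (by omega)]
  simp [ha, hb]

theorem secC_aux1 (P : ℕ → Bool) :
    tab 9 (fun b => bif P b then 2 ^ 9 - 1 else 0) 9 < 2 ^ 81 :=
  tab_lt (w := 9) (F := fun b => bif P b then 2 ^ 9 - 1 else 0) (r := 9)
    (fun v _ => pw 9 (P v))

theorem secC_aux2 (P : ℕ → Bool) :
    tab 81 (fun _ => tab 9 (fun b => bif P b then 2 ^ 9 - 1 else 0) 9) 9 < 2 ^ 729 :=
  tab_lt (w := 81) (F := fun _ => tab 9 (fun b => bif P b then 2 ^ 9 - 1 else 0) 9) (r := 9)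
    (fun _ _ => secC_aux1 P)

theorem secC_lt (P : ℕ → Bool) : secC P < 2 ^ 6561 :=
  tab_lt (w := 729) (F := fun _ => tab 81 (fun _ => tab 9 (fun c =>
    bif P c then 2 ^ 9 - 1 else 0) 9) 9) (r := 9)
    (fun _ _ => secC_aux2 P)

theorem testBit_secC (P : ℕ → Bool) (ha : a < 9) (hb : b < 9)
    (hc : c < 9) (hd : d < 9) : (secC P).testBit (ix4 a b c d) = P c := by
  unfold secC ix4
  rw [testBit_tab (fun v _ => secC_aux2 P) a _ (by omega),
    testBit_tab (fun v _ => secC_aux1 P) b _ (by omega),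
    testBit_tab (fun v _ => pw 9 (P v)) c _ (by omega), testBit_pw _ (by omega)]
  simp [ha, hb, hc]

theorem bif_one_lt (b : Bool) : (bif b then 1 else 0) < 2 ^ 1 := by
  cases b <;> simp

theorem secD_aux1 (P : ℕ → Bool) :
    tab 1 (fun b => bif P b then 1 else 0) 9 < 2 ^ 9 :=
  tab_lt (w := 1) (F := fun b => bif P b then 1 else 0) (r := 9)
    (fun v _ => bif_one_lt (P v))

theorem secD_aux2 (P : ℕ → Bool) :
    tab 9 (fun _ => tab 1 (fun b => bif P b then 1 else 0) 9) 9 < 2 ^ 81 :=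
  tab_lt (w := 9) (F := fun _ => tab 1 (fun b => bif P b then 1 else 0) 9) (r := 9)
    (fun _ _ => secD_aux1 P)

theorem secD_aux3 (P : ℕ → Bool) :
    tab 81 (fun _ => tab 9 (fun _ => tab 1 (fun b => bif P b then 1 else 0) 9) 9) 9 < 2 ^ 729 :=
  tab_lt (w := 81) (F := fun _ => tab 9 (fun _ => tab 1 (fun b => bif P b then 1 else 0) 9) 9)
    (r := 9) (fun _ _ => secD_aux2 P)

theorem secD_lt (P : ℕ → Bool) : secD P < 2 ^ 6561 :=
  tab_lt (w := 729) (F := fun _ => tab 81 (fun _ => tab 9 (fun _ =>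
    tab 1 (fun d => bif P d then 1 else 0) 9) 9) 9) (r := 9)
    (fun _ _ => secD_aux3 P)

theorem testBit_secD (P : ℕ → Bool) (ha : a < 9) (hb : b < 9)
    (hc : c < 9) (hd : d < 9) : (secD P).testBit (ix4 a b c d) = P d := by
  unfold secD ix4
  rw [testBit_tab (fun v _ => secD_aux3 P) a _ (by omega),
    testBit_tab (fun v _ => secD_aux2 P) b _ (by omega),
    testBit_tab (fun v _ => secD_aux1 P) c _ (by omega),
    testBit_tab (fun v _ => bif_one_lt (P v)) d _ (by omega)]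
  simp only [ha, hb, hc, hd, decide_true, Bool.true_and]
  cases P d <;> rfl

theorem testBit_mSec {s : ℕ} (hs : s < 2 ^ 6561) (hx : x < X0) (hy : y < Y0) (ha : a < 9)
    (hb : b < 9) (hc : c < 9) (hd : d < 9) :
    (mSec X0 Y0 s).testBit (ix Y0 x y a b c d) = s.testBit (ix4 a b c d) := by
  unfold mSec
  rw [testBit_lift (fun _ _ => hs) hx hy ha hb hc hd]

/-! ### Membership in shifted sets -/

theorem shU_mem {w nl en S i : ℕ}
    (h : (S.testBit (i + w) = true ∧ nl.testBit i = true) ∨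
      (S.testBit i = true ∧ en.testBit i = true)) : (shU w nl en S).testBit i = true := by
  unfold shU
  rw [Nat.testBit_or, Nat.testBit_and, Nat.testBit_and, Nat.testBit_shiftRight, add_comm w i]
  rcases h with ⟨h1, h2⟩ | ⟨h1, h2⟩ <;> simp [h1, h2]

theorem shD_mem {w nf en S i : ℕ}
    (h : (w ≤ i ∧ S.testBit (i - w) = true ∧ nf.testBit i = true) ∨
      (S.testBit i = true ∧ en.testBit i = true)) : (shD w nf en S).testBit i = true := by
  unfold shD
  rw [Nat.testBit_or, Nat.testBit_and, Nat.testBit_and, Nat.testBit_shiftLeft]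
  rcases h with ⟨h0, h1, h2⟩ | ⟨h1, h2⟩
  · simp [h0, h1, h2]
  · simp [h1, h2]

/-- `v'` is the relative coordinate one step up from `v`. -/
def Stp (v v' : ℕ) : Prop := (v' = v + 1 ∧ v ≤ 7) ∨ (v' = v ∧ (v = 0 ∨ v = 8))

theorem endB_iff {v : ℕ} : endB v = true ↔ v = 0 ∨ v = 8 := by
  unfold endB
  simp

theorem upA_mem {S a' : ℕ} (h : Stp a a') (hx : x < X0) (hy : y < Y0) (ha : a < 9)
    (hb : b < 9) (hc : c < 9) (hd : d < 9) (hS : InS Y0 S x y a' b c d) :
    InS Y0 (upA X0 Y0 S) x y a b c d := by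
  unfold InS at *
  apply shU_mem
  rw [testBit_mSec (secA_lt _) hx hy ha hb hc hd, testBit_mSec (secA_lt _) hx hy ha hb hc hd,
    testBit_secA _ ha hb hc hd, testBit_secA _ ha hb hc hd]
  rcases h with ⟨h1, h2⟩ | ⟨h1, h2⟩
  · left
    refine ⟨?_, by simpa using h2⟩
    rw [h1] at hS
    rw [show ix Y0 x y a b c d + 729 = ix Y0 x y (a + 1) b c d by unfold ix; ring]
    exact hS
  · right
    rw [h1] at hS
    exact ⟨hS, endB_iff.2 h2⟩

theorem dnA_mem {S a' : ℕ} (h : Stp a' a) (hx : x < X0) (hy : y < Y0) (ha : a < 9)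
    (hb : b < 9) (hc : c < 9) (hd : d < 9) (hS : InS Y0 S x y a' b c d) :
    InS Y0 (dnA X0 Y0 S) x y a b c d := by
  unfold InS at *
  apply shD_mem
  rw [testBit_mSec (secA_lt _) hx hy ha hb hc hd, testBit_mSec (secA_lt _) hx hy ha hb hc hd,
    testBit_secA _ ha hb hc hd, testBit_secA _ ha hb hc hd]
  rcases h with ⟨h1, h2⟩ | ⟨h1, h2⟩
  · left
    have e : ix Y0 x y a b c d = ix Y0 x y a' b c d + 729 := by rw [h1]; unfold ix; ring
    refine ⟨by omega, ?_, ?_⟩
    · rw [e, Nat.add_sub_cancel]; exact hS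
    · rw [Nat.ble_eq]; omega
  · right
    subst h1
    exact ⟨hS, endB_iff.2 h2⟩

theorem upB_mem {S b' : ℕ} (h : Stp b b') (hx : x < X0) (hy : y < Y0) (ha : a < 9)
    (hb : b < 9) (hc : c < 9) (hd : d < 9) (hS : InS Y0 S x y a b' c d) :
    InS Y0 (upB X0 Y0 S) x y a b c d := by
  unfold InS at *
  apply shU_mem
  rw [testBit_mSec (secB_lt _) hx hy ha hb hc hd, testBit_mSec (secB_lt _) hx hy ha hb hc hd,
    testBit_secB _ ha hb hc hd, testBit_secB _ ha hb hc hd]
  rcases h with ⟨h1, h2⟩ | ⟨h1, h2⟩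
  · left
    refine ⟨?_, by simpa using h2⟩
    rw [h1] at hS
    rw [show ix Y0 x y a b c d + 81 = ix Y0 x y a (b + 1) c d by unfold ix; ring]
    exact hS
  · right
    rw [h1] at hS
    exact ⟨hS, endB_iff.2 h2⟩

theorem dnB_mem {S b' : ℕ} (h : Stp b' b) (hx : x < X0) (hy : y < Y0) (ha : a < 9)
    (hb : b < 9) (hc : c < 9) (hd : d < 9) (hS : InS Y0 S x y a b' c d) :
    InS Y0 (dnB X0 Y0 S) x y a b c d := by
  unfold InS at *
  apply shD_mem
  rw [testBit_mSec (secB_lt _) hx hy ha hb hc hd, testBit_mSec (secB_lt _) hx hy ha hb hc hd,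
    testBit_secB _ ha hb hc hd, testBit_secB _ ha hb hc hd]
  rcases h with ⟨h1, h2⟩ | ⟨h1, h2⟩
  · left
    have e : ix Y0 x y a b c d = ix Y0 x y a b' c d + 81 := by rw [h1]; unfold ix; ring
    refine ⟨by omega, ?_, ?_⟩
    · rw [e, Nat.add_sub_cancel]; exact hS
    · rw [Nat.ble_eq]; omega
  · right
    subst h1
    exact ⟨hS, endB_iff.2 h2⟩

theorem upC_mem {S c' : ℕ} (h : Stp c c') (hx : x < X0) (hy : y < Y0) (ha : a < 9)
    (hb : b < 9) (hc : c < 9) (hd : d < 9) (hS : InS Y0 S x y a b c' d) :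
    InS Y0 (upC X0 Y0 S) x y a b c d := by
  unfold InS at *
  apply shU_mem
  rw [testBit_mSec (secC_lt _) hx hy ha hb hc hd, testBit_mSec (secC_lt _) hx hy ha hb hc hd,
    testBit_secC _ ha hb hc hd, testBit_secC _ ha hb hc hd]
  rcases h with ⟨h1, h2⟩ | ⟨h1, h2⟩
  · left
    refine ⟨?_, by simpa using h2⟩
    rw [h1] at hS
    rw [show ix Y0 x y a b c d + 9 = ix Y0 x y a b (c + 1) d by unfold ix; ring]
    exact hS
  · right
    rw [h1] at hS
    exact ⟨hS, endB_iff.2 h2⟩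

theorem dnC_mem {S c' : ℕ} (h : Stp c' c) (hx : x < X0) (hy : y < Y0) (ha : a < 9)
    (hb : b < 9) (hc : c < 9) (hd : d < 9) (hS : InS Y0 S x y a b c' d) :
    InS Y0 (dnC X0 Y0 S) x y a b c d := by
  unfold InS at *
  apply shD_mem
  rw [testBit_mSec (secC_lt _) hx hy ha hb hc hd, testBit_mSec (secC_lt _) hx hy ha hb hc hd,
    testBit_secC _ ha hb hc hd, testBit_secC _ ha hb hc hd]
  rcases h with ⟨h1, h2⟩ | ⟨h1, h2⟩
  · left
    have e : ix Y0 x y a b c d = ix Y0 x y a b c' d + 9 := by rw [h1]; unfold ix; ring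
    refine ⟨by omega, ?_, ?_⟩
    · rw [e, Nat.add_sub_cancel]; exact hS
    · rw [Nat.ble_eq]; omega
  · right
    subst h1
    exact ⟨hS, endB_iff.2 h2⟩

theorem upD_mem {S d' : ℕ} (h : Stp d d') (hx : x < X0) (hy : y < Y0) (ha : a < 9)
    (hb : b < 9) (hc : c < 9) (hd : d < 9) (hS : InS Y0 S x y a b c d') :
    InS Y0 (upD X0 Y0 S) x y a b c d := by
  unfold InS at *
  apply shU_mem
  rw [testBit_mSec (secD_lt _) hx hy ha hb hc hd, testBit_mSec (secD_lt _) hx hy ha hb hc hd,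
    testBit_secD _ ha hb hc hd, testBit_secD _ ha hb hc hd]
  rcases h with ⟨h1, h2⟩ | ⟨h1, h2⟩
  · left
    refine ⟨?_, by simpa using h2⟩
    rw [h1] at hS
    rw [show ix Y0 x y a b c d + 1 = ix Y0 x y a b c (d + 1) by unfold ix; ring]
    exact hS
  · right
    rw [h1] at hS
    exact ⟨hS, endB_iff.2 h2⟩

theorem dnD_mem {S d' : ℕ} (h : Stp d' d) (hx : x < X0) (hy : y < Y0) (ha : a < 9)
    (hb : b < 9) (hc : c < 9) (hd : d < 9) (hS : InS Y0 S x y a b c d') :
    InS Y0 (dnD X0 Y0 S) x y a b c d := by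
  unfold InS at *
  apply shD_mem
  rw [testBit_mSec (secD_lt _) hx hy ha hb hc hd, testBit_mSec (secD_lt _) hx hy ha hb hc hd,
    testBit_secD _ ha hb hc hd, testBit_secD _ ha hb hc hd]
  rcases h with ⟨h1, h2⟩ | ⟨h1, h2⟩
  · left
    have e : ix Y0 x y a b c d = ix Y0 x y a b c d' + 1 := by rw [h1]; unfold ix; ring
    refine ⟨by omega, ?_, ?_⟩
    · rw [e, Nat.add_sub_cancel]; exact hS
    · rw [Nat.ble_eq]; omega
  · right
    subst h1
    exact ⟨hS, endB_iff.2 h2⟩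

/-- Absolute coordinate of the Black king: up. -/
def AbsU (Z v v' : ℕ) : Prop := (v' = v + 1 ∧ v + 2 ≤ Z) ∨ (v' = v ∧ v + 1 = Z)
/-- Absolute coordinate of the Black king: down. -/
def AbsD (Z v v' : ℕ) : Prop := v = v' + 1 ∨ (v' = v ∧ v + 1 = Z)

theorem upX_mem {S x' : ℕ} (h : AbsU X0 x x') (hx : x < X0) (hy : y < Y0) (ha : a < 9)
    (hb : b < 9) (hc : c < 9) (hd : d < 9) (hS : InS Y0 S x' y a b c d) :
    InS Y0 (upX X0 Y0 S) x y a b c d := by
  unfold InS at *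
  apply shU_mem
  rw [testBit_mX _ hx hy ha hb hc hd, testBit_mX _ hx hy ha hb hc hd]
  rcases h with ⟨h1, h2⟩ | ⟨h1, h2⟩
  · left
    refine ⟨?_, by simpa using h2⟩
    rw [h1] at hS
    rw [show ix Y0 x y a b c d + Y0 * 6561 = ix Y0 (x + 1) y a b c d by unfold ix; ring]
    exact hS
  · right
    rw [h1] at hS
    exact ⟨hS, by simpa using h2⟩

theorem dnX_mem {S x' : ℕ} (h : AbsD X0 x x') (hx : x < X0) (hy : y < Y0) (ha : a < 9)
    (hb : b < 9) (hc : c < 9) (hd : d < 9) (hS : InS Y0 S x' y a b c d) :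
    InS Y0 (dnX X0 Y0 S) x y a b c d := by
  unfold InS at *
  apply shD_mem
  rw [testBit_mX _ hx hy ha hb hc hd, testBit_mX _ hx hy ha hb hc hd]
  rcases h with h1 | ⟨h1, h2⟩
  · left
    have e : ix Y0 x y a b c d = ix Y0 x' y a b c d + Y0 * 6561 := by rw [h1]; unfold ix; ring
    refine ⟨by omega, ?_, ?_⟩
    · rw [e, Nat.add_sub_cancel]; exact hS
    · rw [Nat.ble_eq]; omega
  · right
    subst h1
    exact ⟨hS, by simpa using h2⟩

theorem upY_mem {S y' : ℕ} (h : AbsU Y0 y y') (hx : x < X0) (hy : y < Y0) (ha : a < 9)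
    (hb : b < 9) (hc : c < 9) (hd : d < 9) (hS : InS Y0 S x y' a b c d) :
    InS Y0 (upY X0 Y0 S) x y a b c d := by
  unfold InS at *
  apply shU_mem
  rw [testBit_mY _ hx hy ha hb hc hd, testBit_mY _ hx hy ha hb hc hd]
  rcases h with ⟨h1, h2⟩ | ⟨h1, h2⟩
  · left
    refine ⟨?_, by simpa using h2⟩
    rw [h1] at hS
    rw [show ix Y0 x y a b c d + 6561 = ix Y0 x (y + 1) a b c d by unfold ix; ring]
    exact hS
  · right
    rw [h1] at hS
    exact ⟨hS, by simpa using h2⟩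

theorem dnY_mem {S y' : ℕ} (h : AbsD Y0 y y') (hx : x < X0) (hy : y < Y0) (ha : a < 9)
    (hb : b < 9) (hc : c < 9) (hd : d < 9) (hS : InS Y0 S x y' a b c d) :
    InS Y0 (dnY X0 Y0 S) x y a b c d := by
  unfold InS at *
  apply shD_mem
  rw [testBit_mY _ hx hy ha hb hc hd, testBit_mY _ hx hy ha hb hc hd]
  rcases h with h1 | ⟨h1, h2⟩
  · left
    have e : ix Y0 x y a b c d = ix Y0 x y' a b c d + 6561 := by rw [h1]; unfold ix; ring
    refine ⟨by omega, ?_, ?_⟩
    · rw [e, Nat.add_sub_cancel]; exact hS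
    · rw [Nat.ble_eq]; omega
  · right
    subst h1
    exact ⟨hS, by simpa using h2⟩

end

end Pool.Agent.Helper62.KRK
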