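import Pool.Agent.Helper62.KRK.Bits

/-!
# The abstract game

Abstract positions: `x, y` are the coordinates of the Black king minus one, cut off at `X0 - 1`
and `Y0 - 1`; `a, b` (`c, d`) is the place of the White king (the rook) relative to the Black
king, plus four, cut off to `0, ..., 8`.
-/

namespace Pool.Agent.Helper62.KRK

/-- The relative coordinate. -/
def rel (v k : ℕ) : ℕ := min (v + 4 - k) 8

def nearB (u v : ℕ) : Bool := Nat.ble u (v + 1) && Nat.ble v (u + 1)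

/-- The value is not cut off. -/
def exB (v : ℕ) : Bool := Nat.ble 1 v && Nat.ble v 7

def btwB (p q r : ℕ) : Bool :=
  (Nat.ble (p + 1) q && Nat.ble (q + 1) r) || (Nat.ble (r + 1) q && Nat.ble (q + 1) p)

/-- Necessary condition for legal positions. -/
def vlow (a b c d : ℕ) : Bool :=
  !(nearB a 4 && nearB b 4) && !(Nat.beq c 4 && Nat.beq d 4) &&
    !(Nat.beq a c && Nat.beq b d && exB a && exB b)

/-- Sufficient condition for the Black king being able to go to `(tx, ty)` (not capturing). -/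
def leg (tx ty a b c d : ℕ) : Bool :=
  !(nearB a tx && nearB b ty) && !(Nat.beq c tx && Nat.beq d ty) &&
    (!(Nat.beq c tx) || (Nat.beq a tx && exB b && btwB ty b d)) &&
    (!(Nat.beq d ty) || (Nat.beq b ty && exB a && btwB tx a c))

/-- The Black king can capture the rook. -/
def capB (a b c d : ℕ) : Bool :=
  nearB c 4 && nearB d 4 && !(nearB a c && nearB b d)

/-- The Black king (in the corner) is stalemated (unless it can capture the rook). -/
def stalB (a b c d : ℕ) : Bool :=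
  exB a && exB b &&
    !((Nat.beq c 4 && !(Nat.beq a 4 && btwB 4 b d)) ||
      (Nat.beq d 4 && !(Nat.beq b 4 && btwB 4 a c))) &&
    !(leg 4 5 a b c d) && !(leg 5 4 a b c d) && !(leg 5 5 a b c d)

def ones : ℕ := 2 ^ 6561 - 1

noncomputable def mX (X0 Y0 : ℕ) (P : ℕ → Bool) : ℕ :=
  lift X0 Y0 (fun x _ => bif P x then ones else 0)

noncomputable def mY (X0 Y0 : ℕ) (P : ℕ → Bool) : ℕ :=
  lift X0 Y0 (fun _ y => bif P y then ones else 0)

noncomputable def mL (X0 Y0 : ℕ) (P : ℕ → ℕ → ℕ → ℕ → Bool) : ℕ :=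
  lift X0 Y0 (fun _ _ => low P)

/-- Indicator of a condition on `a` alone, as a section. -/
noncomputable def secA (P : ℕ → Bool) : ℕ :=
  tab 729 (fun a => bif P a then 2 ^ 729 - 1 else 0) 9

/-- Indicator of a condition on `b` alone, as a section. -/
noncomputable def secB (P : ℕ → Bool) : ℕ :=
  tab 729 (fun _ => tab 81 (fun b => bif P b then 2 ^ 81 - 1 else 0) 9) 9

/-- Indicator of a condition on `c` alone, as a section. -/
noncomputable def secC (P : ℕ → Bool) : ℕ :=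
  tab 729 (fun _ => tab 81 (fun _ => tab 9 (fun c => bif P c then 2 ^ 9 - 1 else 0) 9) 9) 9

/-- Indicator of a condition on `d` alone, as a section. -/
noncomputable def secD (P : ℕ → Bool) : ℕ :=
  tab 729 (fun _ => tab 81 (fun _ => tab 9 (fun _ =>
    tab 1 (fun d => bif P d then 1 else 0) 9) 9) 9) 9

/-- The set of valid abstract positions. -/
noncomputable def valid (X0 Y0 : ℕ) (fx fy : Bool) : ℕ :=
  mL X0 Y0 vlow &&&
    (lift X0 Y0 (fun x _ => bif fx then secA (fun a => Nat.ble (x + a + 1) (X0 + 4)) else ones) &&&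
     lift X0 Y0 (fun _ y => bif fy then secB (fun b => Nat.ble (y + b + 1) (Y0 + 4)) else ones))

/-- The set of abstract positions (Black to move) in which Black certainly does not lose. -/
noncomputable def safe (X0 Y0 : ℕ) (fx fy : Bool) : ℕ :=
  lift X0 Y0 (fun x y =>
    bif (fx && Nat.beq (x + 1) X0) || (fy && Nat.beq (y + 1) Y0) then ones
    else bif Nat.beq x 0 && Nat.beq y 0 then low capB ||| low stalB else low capB)

noncomputable def legM (X0 Y0 tx ty : ℕ) : ℕ :=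
  lift X0 Y0 (fun x y =>
    bif (Nat.ble 4 tx || Nat.ble 1 x) && (Nat.ble 4 ty || Nat.ble 1 y) then low (leg tx ty) else 0)

def shU (w nl en S : ℕ) : ℕ := ((S >>> w) &&& nl) ||| (S &&& en)
def shD (w nf en S : ℕ) : ℕ := ((S <<< w) &&& nf) ||| (S &&& en)

def endB (v : ℕ) : Bool := Nat.beq v 0 || Nat.beq v 8

noncomputable def upX (X0 Y0 S : ℕ) : ℕ :=
  shU (Y0 * 6561) (mX X0 Y0 (fun x => Nat.ble (x + 2) X0)) (mX X0 Y0 (fun x => Nat.beq (x + 1) X0)) S
noncomputable def dnX (X0 Y0 S : ℕ) : ℕ :=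
  shD (Y0 * 6561) (mX X0 Y0 (fun x => Nat.ble 1 x)) (mX X0 Y0 (fun x => Nat.beq (x + 1) X0)) S
noncomputable def upY (X0 Y0 S : ℕ) : ℕ :=
  shU 6561 (mY X0 Y0 (fun x => Nat.ble (x + 2) Y0)) (mY X0 Y0 (fun x => Nat.beq (x + 1) Y0)) S
noncomputable def dnY (X0 Y0 S : ℕ) : ℕ :=
  shD 6561 (mY X0 Y0 (fun x => Nat.ble 1 x)) (mY X0 Y0 (fun x => Nat.beq (x + 1) Y0)) S

noncomputable def mSec (X0 Y0 : ℕ) (s : ℕ) : ℕ := lift X0 Y0 (fun _ _ => s)

noncomputable def upA (X0 Y0 S : ℕ) : ℕ :=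
  shU 729 (mSec X0 Y0 (secA (fun v => Nat.ble v 7))) (mSec X0 Y0 (secA endB)) S
noncomputable def dnA (X0 Y0 S : ℕ) : ℕ :=
  shD 729 (mSec X0 Y0 (secA (fun v => Nat.ble 1 v))) (mSec X0 Y0 (secA endB)) S
noncomputable def upB (X0 Y0 S : ℕ) : ℕ :=
  shU 81 (mSec X0 Y0 (secB (fun v => Nat.ble v 7))) (mSec X0 Y0 (secB endB)) S
noncomputable def dnB (X0 Y0 S : ℕ) : ℕ :=
  shD 81 (mSec X0 Y0 (secB (fun v => Nat.ble 1 v))) (mSec X0 Y0 (secB endB)) S
noncomputable def upC (X0 Y0 S : ℕ) : ℕ :=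
  shU 9 (mSec X0 Y0 (secC (fun v => Nat.ble v 7))) (mSec X0 Y0 (secC endB)) S
noncomputable def dnC (X0 Y0 S : ℕ) : ℕ :=
  shD 9 (mSec X0 Y0 (secC (fun v => Nat.ble 1 v))) (mSec X0 Y0 (secC endB)) S
noncomputable def upD (X0 Y0 S : ℕ) : ℕ :=
  shU 1 (mSec X0 Y0 (secD (fun v => Nat.ble v 7))) (mSec X0 Y0 (secD endB)) S
noncomputable def dnD (X0 Y0 S : ℕ) : ℕ :=
  shD 1 (mSec X0 Y0 (secD (fun v => Nat.ble 1 v))) (mSec X0 Y0 (secD endB)) S

/-- The Black king goes east, west, north, south. -/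
noncomputable def goE (X0 Y0 S : ℕ) : ℕ := upX X0 Y0 (dnA X0 Y0 (dnC X0 Y0 S))
noncomputable def goW (X0 Y0 S : ℕ) : ℕ := dnX X0 Y0 (upA X0 Y0 (upC X0 Y0 S))
noncomputable def goN (X0 Y0 S : ℕ) : ℕ := upY X0 Y0 (dnB X0 Y0 (dnD X0 Y0 S))
noncomputable def goS (X0 Y0 S : ℕ) : ℕ := dnY X0 Y0 (upB X0 Y0 (upD X0 Y0 S))

/-- `A` without the positions that are in `leg` but not in `pre`. -/
def cut (A lg pre : ℕ) : ℕ := sdf A lg ||| (A &&& pre)

/-- Positions with Black to move that may be lost, if `W` are those with White to move. -/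
noncomputable def stepL (X0 Y0 : ℕ) (fx fy : Bool) (W : ℕ) : ℕ :=
  cut (cut (cut (cut (cut (cut (cut (cut (sdf (valid X0 Y0 fx fy) (safe X0 Y0 fx fy))
    (legM X0 Y0 5 4) (goE X0 Y0 W))
    (legM X0 Y0 3 4) (goW X0 Y0 W))
    (legM X0 Y0 4 5) (goN X0 Y0 W))
    (legM X0 Y0 4 3) (goS X0 Y0 W))
    (legM X0 Y0 5 5) (goE X0 Y0 (goN X0 Y0 W)))
    (legM X0 Y0 3 5) (goW X0 Y0 (goN X0 Y0 W)))
    (legM X0 Y0 5 3) (goE X0 Y0 (goS X0 Y0 W)))
    (legM X0 Y0 3 3) (goW X0 Y0 (goS X0 Y0 W))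

/-- White king moves. -/
noncomputable def stepK (X0 Y0 L : ℕ) : ℕ :=
  upA X0 Y0 L ||| (dnA X0 Y0 L ||| (upB X0 Y0 L ||| (dnB X0 Y0 L |||
    (upB X0 Y0 (upA X0 Y0 L) ||| (dnB X0 Y0 (upA X0 Y0 L) |||
      (upB X0 Y0 (dnA X0 Y0 L) ||| dnB X0 Y0 (dnA X0 Y0 L)))))))

/-- Rook moves in one direction (nine unit steps). -/
noncomputable def slide (P : ℕ → ℕ) (V L : ℕ) (n : ℕ) : ℕ :=
  Nat.rec 0 (fun _ T => P (L ||| (T &&& V))) n

def okS (P : ℕ → ℕ) (V L T : ℕ) : Bool := Nat.beq (P (L ||| (T &&& V)) ||| T) T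

/-- All four rook directions are closed. -/
def ok4 (X0 Y0 V L T1 T2 T3 T4 : ℕ) (P1 P2 P3 P4 : ℕ → ℕ → ℕ → ℕ) : Bool :=
  okS (P1 X0 Y0) V L T1 && (okS (P2 X0 Y0) V L T2 && (okS (P3 X0 Y0) V L T3 &&
    okS (P4 X0 Y0) V L T4))

/-- One round of the computation: continue with `k` on the new set if the checks are passed. -/
noncomputable def round (X0 Y0 : ℕ) (fx fy : Bool) (k : ℕ → Bool) (W : ℕ) : Bool :=
  (fun L => (fun T1 T2 T3 T4 =>
      ok4 X0 Y0 (valid X0 Y0 fx fy) L T1 T2 T3 T4 upC dnC upD dnD &&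
        k (stepK X0 Y0 L ||| (T1 ||| (T2 ||| (T3 ||| T4)))))
    (slide (upC X0 Y0) (valid X0 Y0 fx fy) L 9) (slide (dnC X0 Y0) (valid X0 Y0 fx fy) L 9)
    (slide (upD X0 Y0) (valid X0 Y0 fx fy) L 9) (slide (dnD X0 Y0) (valid X0 Y0 fx fy) L 9))
  (stepL X0 Y0 fx fy W)

/-- The index of the starting position. -/
def stIx (Y0 : ℕ) : ℕ := ix Y0 2 2 2 2 3 3

/-- `n` rounds, then the starting position is not in the set. -/
noncomputable def chk (X0 Y0 : ℕ) (fx fy : Bool) (n : ℕ) : ℕ → Bool :=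
  Nat.rec (fun W => !(W.testBit (stIx Y0))) (fun _ k W => round X0 Y0 fx fy k W) n

/-- `n` rounds, then the set is closed and the starting position is not in the set. -/
noncomputable def chkFix (X0 Y0 : ℕ) (fx fy : Bool) (n : ℕ) : ℕ → Bool :=
  Nat.rec (fun W => !(W.testBit (stIx Y0)) && round X0 Y0 fx fy (fun W' => Nat.beq (W' ||| W) W) W)
    (fun _ k W => round X0 Y0 fx fy k W) n

end Pool.Agent.Helper62.KRK
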