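import Pool.Agent.Helper62.KRK.Table
import Pool.Agent.Helper62.KRK.Game

/-!
# Checking White's strategy
-/

namespace Pool.Agent.Helper62.KRK

def nearS (ax ay bx by' : ℕ) : Bool := nearB ax bx && nearB ay by'

def hitB (kx ky rx ry sx sy : ℕ) : Bool :=
  (Nat.beq rx sx && (!Nat.beq ry sy && !(Nat.beq kx sx && btwB ry ky sy))) ||
    (Nat.beq ry sy && (!Nat.beq rx sx && !(Nat.beq ky sy && btwB rx kx sx)))

/-- The Black king may not go to `s`. -/
def illegal (kx ky rx ry sx sy : ℕ) : Bool :=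
  Nat.beq sx 0 || (Nat.beq sy 0 || (nearS kx ky sx sy ||
    (!(Nat.beq sx rx && Nat.beq sy ry) && hitB kx ky rx ry sx sy)))

/-- Look up the data of the group. -/
def look (l : List (ℕ × ℕ)) (r : ℕ) : ℕ :=
  l.rec 0 (fun p _ ih => bif Nat.beq p.1 r then p.2 else ih)

def field (g x y : ℕ) : ℕ := (g >>> (14 * (8 * (y - 1) + (x - 1)))) % 16384

/-- The number of a square. -/
def num (x y : ℕ) : ℕ := 9 * (y - 1) + (x - 1)

def grp (T : List (List (ℕ × ℕ))) (kx ky rx ry : ℕ) : ℕ :=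
  look (T.getD (num kx ky) []) (num rx ry)

/-- The depth recorded in the table, zero outside of the range. -/
def dep (g x y : ℕ) : ℕ := bif Nat.ble x 8 && Nat.ble y 10 then field g x y % 64 else 0

/-- The target `s` is fine for White. -/
def okT (g d kx ky rx ry sx sy : ℕ) : Bool :=
  illegal kx ky rx ry sx sy ||
    (!(Nat.beq sx rx && Nat.beq sy ry) && (Nat.ble 1 (dep g sx sy) && Nat.ble (dep g sx sy + 1) d))

/-- All eight targets (given by the square to the south west of `b`). -/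
def all8 (f : ℕ → ℕ → Bool) (x y : ℕ) : Bool :=
  f x y && (f x (y + 1) && (f x (y + 2) && (f (x + 1) y && (f (x + 1) (y + 2) &&
    (f (x + 2) y && (f (x + 2) (y + 1) && f (x + 2) (y + 2)))))))

/-- The position with Black to move is won for White within `d - 1` further moves. -/
def okB (g d kx ky rx ry bx by' : ℕ) : Bool :=
  all8 (okT g d kx ky rx ry) (bx - 1) (by' - 1) &&
    (hitB kx ky rx ry bx by' || !(all8 (illegal kx ky rx ry) (bx - 1) (by' - 1)))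

def inR (x y : ℕ) : Bool := Nat.ble 1 x && (Nat.ble x 9 && (Nat.ble 1 y && Nat.ble y 11))

/-- White's move (piece `p`, target `(tx, ty)`). -/
def okW (T : List (List (ℕ × ℕ))) (d p tx ty kx ky rx ry bx by' : ℕ) : Bool :=
  inR tx ty && (bif Nat.beq p 0 then
    nearS kx ky tx ty && (!(Nat.beq kx tx && Nat.beq ky ty) && (!(Nat.beq tx rx && Nat.beq ty ry) &&
      (!(nearS tx ty bx by') && okB (grp T tx ty rx ry) d tx ty rx ry bx by')))
  else
    hitB kx ky rx ry tx ty && (hitB bx by' rx ry tx ty && (!(Nat.beq tx kx && Nat.beq ty ky) &&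
      (!(Nat.beq tx bx && Nat.beq ty by') && okB (grp T kx ky tx ty) d kx ky tx ty bx by'))))

/-- A cell of the table. -/
def okCell (T : List (List (ℕ × ℕ))) (f kx ky rx ry bx by' : ℕ) : Bool :=
  Nat.beq (f % 64) 0 ||
    okW T (f % 64) ((f / 64) % 2) ((f / 128) % 9 + 1) ((f / 128) / 9 + 1) kx ky rx ry bx by'

def allLt (n : ℕ) (f : ℕ → Bool) : Bool := Nat.rec true (fun i ih => f i && ih) n

theorem allLt_elim {n : ℕ} {f : ℕ → Bool} (h : allLt n f = true) : ∀ i < n, f i = true := by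
  induction n with
  | zero => intro i hi; omega
  | succ n ih =>
    have h' : (f n && allLt n f) = true := h
    rw [Bool.and_eq_true] at h'
    intro i hi
    rcases Nat.lt_succ_iff_lt_or_eq.1 hi with h1 | h1
    · exact ih h'.2 i h1
    · rw [h1]; exact h'.1

/-- All cells of a group. -/
def okGrp (T : List (List (ℕ × ℕ))) (g kx ky rx ry : ℕ) : Bool :=
  allLt 10 (fun y => allLt 8 (fun x =>
    okCell T (field g (x + 1) (y + 1)) kx ky rx ry (x + 1) (y + 1)))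

/-- All groups for one square of the White king. -/
def okKing (T : List (List (ℕ × ℕ))) (k : ℕ) : Bool :=
  (T.getD k []).rec true (fun p _ ih =>
    okGrp T p.2 (k % 9 + 1) (k / 9 + 1) (p.1 % 9 + 1) (p.1 / 9 + 1) && ih)

/-! ### Soundness -/

theorem nearS_iff {a1 a2 b1 b2 : ℕ} : nearS a1 a2 b1 b2 = true ↔
    (a1 ≤ b1 + 1 ∧ b1 ≤ a1 + 1) ∧ (a2 ≤ b2 + 1 ∧ b2 ≤ a2 + 1) := by
  simp only [nearS, Bool.and_eq_true, nearB_iff]

theorem hitB_iff {k1 k2 r1 r2 s1 s2 : ℕ} : hitB k1 k2 r1 r2 s1 s2 = true ↔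
    RookHits (k1, k2) (r1, r2) (s1, s2) := by
  have h : hitB k1 k2 r1 r2 s1 s2 = true ↔
      (r1 = s1 ∧ (¬ (r2 = s2) ∧ ¬ (k1 = s1 ∧ ((r2 < k2 ∧ k2 < s2) ∨ (s2 < k2 ∧ k2 < r2))))) ∨
      (r2 = s2 ∧ (¬ (r1 = s1) ∧ ¬ (k2 = s2 ∧ ((r1 < k1 ∧ k1 < s1) ∨ (s1 < k1 ∧ k1 < r1))))) := by
    simp only [hitB, Bool.and_eq_true, Bool.or_eq_true, notB, btwB_iff, beqN]
  rw [h]
  unfold RookHits Line Between
  simp only [ne_eq, Prod.mk.injEq]
  constructor
  · rintro (⟨h1, h2, h3⟩ | ⟨h1, h2, h3⟩)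
    · refine ⟨⟨fun h4 => h2 h4.2, Or.inl h1⟩, ?_⟩
      rintro (⟨h4, h5, h6⟩ | ⟨h4, h5, h6⟩)
      · exact h3 ⟨h5, h6⟩
      · omega
    · refine ⟨⟨fun h4 => h2 h4.1, Or.inr h1⟩, ?_⟩
      rintro (⟨h4, h5, h6⟩ | ⟨h4, h5, h6⟩)
      · omega
      · exact h3 ⟨h5, h6⟩
  · rintro ⟨⟨h1, h2 | h2⟩, h3⟩
    · left
      refine ⟨h2, fun h4 => h1 ⟨h2, h4⟩, fun h4 => h3 (Or.inl ⟨h4.1.trans h2.symm, h4.1, h4.2⟩)⟩
    · right
      refine ⟨h2, fun h4 => h1 ⟨h4, h2⟩, fun h4 => h3 (Or.inr ⟨h4.1.trans h2.symm, h4.1, h4.2⟩)⟩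

/-- The board contains the 9 by 11 board. -/
def Big (B : Board) : Prop := (9 : ℕ∞) ≤ B.files ∧ (11 : ℕ∞) ≤ B.ranks

theorem mem_of_big {B : Board} (hB : Big B) {s1 s2 : ℕ} (h1 : 1 ≤ s1) (h2 : 1 ≤ s2)
    (h3 : s1 ≤ 9) (h4 : s2 ≤ 11) : B.Mem (s1, s2) := by
  refine ⟨h1, h2, le_trans ?_ hB.1, le_trans ?_ hB.2⟩
  · exact_mod_cast h3
  · exact_mod_cast h4

theorem not_exit_of_big {B : Board} (hB : Big B) {k r : Sq} {s1 s2 : ℕ} (h3 : s1 ≤ 8)
    (h4 : s2 ≤ 10) : ¬ CanExit B ⟨k, r, (s1, s2)⟩ := by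
  rintro (h | h)
  · simp only at h
    have h5 := hB.1
    rw [← h] at h5
    have : 9 ≤ s1 := by exact_mod_cast h5
    omega
  · simp only at h
    have h5 := hB.2
    rw [← h] at h5
    have : 11 ≤ s2 := by exact_mod_cast h5
    omega

theorem illegal_of_not {B : Board} {k1 k2 r1 r2 b1 b2 s1 s2 : ℕ}
    (h : BlackMove B ⟨(k1, k2), (r1, r2), (b1, b2)⟩ (s1, s2)) :
    illegal k1 k2 r1 r2 s1 s2 = false := by
  obtain ⟨m1, m2, m3, m4, m5⟩ := h
  rw [← Bool.not_eq_true]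
  intro h
  unfold illegal at h
  simp only [Bool.or_eq_true, Bool.and_eq_true, beqN, notB, nearS_iff, hitB_iff] at h
  rcases h with h | h | h | h
  · have := m2.1
    simp only at this
    omega
  · have := m2.2.1
    simp only at this
    omega
  · apply m4
    exact ⟨fun h5 => m3 h5.symm, h.1.1, h.1.2, h.2.1, h.2.2⟩
  · rcases m5 with m5 | m5
    · simp only [Prod.mk.injEq] at m5
      exact h.1 m5
    · exact m5 h.2

theorem move_of_legal {B : Board} (hB : Big B) {k1 k2 r1 r2 b1 b2 s1 s2 : ℕ}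
    (hb1 : b1 ≤ 8) (hb2 : b2 ≤ 10)
    (h : illegal k1 k2 r1 r2 s1 s2 = false) (hs : KingStep (b1, b2) (s1, s2)) :
    BlackMove B ⟨(k1, k2), (r1, r2), (b1, b2)⟩ (s1, s2) := by
  rw [← Bool.not_eq_true] at h
  unfold illegal at h
  simp only [Bool.or_eq_true, Bool.and_eq_true, beqN, notB, nearS_iff, hitB_iff, not_or] at h
  obtain ⟨h1, h2, h3, h4⟩ := h
  obtain ⟨n1, n2, n3, n4, n5⟩ := hs
  simp only at n2 n3 n4 n5
  refine ⟨⟨n1, n2, n3, n4, n5⟩, mem_of_big hB (by omega) (by omega) (by omega) (by omega), ?_, ?_, ?_⟩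
  · simp only [ne_eq, Prod.mk.injEq]
    rintro ⟨rfl, rfl⟩
    apply h3
    omega
  · rintro ⟨_, h5, h6, h7, h8⟩
    simp only at h5 h6 h7 h8
    exact h3 ⟨⟨h5, h6⟩, ⟨h7, h8⟩⟩
  · by_cases h5 : (s1, s2) = (r1, r2)
    · exact Or.inl h5
    · right
      intro h6
      apply h4
      refine ⟨?_, h6⟩
      intro h7
      apply h5
      simp only [Prod.mk.injEq]
      exact h7

/-- The eight neighbours. -/
theorem all8_elim {f : ℕ → ℕ → Bool} {b1 b2 s1 s2 : ℕ} (hb1 : 1 ≤ b1) (hb2 : 1 ≤ b2)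
    (h : all8 f (b1 - 1) (b2 - 1) = true) (hs : KingStep (b1, b2) (s1, s2)) :
    f s1 s2 = true := by
  unfold all8 at h
  simp only [Bool.and_eq_true] at h
  obtain ⟨h1, h2, h3, h4, h5, h6, h7, h8⟩ := h
  obtain ⟨n1, n2, n3, n4, n5⟩ := hs
  simp only [ne_eq, Prod.mk.injEq] at n1 n2 n3 n4 n5
  have e1 : s1 = b1 - 1 ∨ s1 = b1 - 1 + 1 ∨ s1 = b1 - 1 + 2 := by omega
  have e2 : s2 = b2 - 1 ∨ s2 = b2 - 1 + 1 ∨ s2 = b2 - 1 + 2 := by omega
  rcases e1 with e1 | e1 | e1 <;> rcases e2 with e2 | e2 | e2 <;> rw [e1, e2]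
  · exact h1
  · exact h2
  · exact h3
  · exact h4
  · omega
  · exact h5
  · exact h6
  · exact h7
  · exact h8

theorem all8_false {f : ℕ → ℕ → Bool} {b1 b2 : ℕ} (hb1 : 1 ≤ b1) (hb2 : 1 ≤ b2)
    (h : ¬ (all8 f (b1 - 1) (b2 - 1) = true)) :
    ∃ s1 s2, KingStep (b1, b2) (s1, s2) ∧ f s1 s2 = false := by
  by_contra hc
  apply h
  have key : ∀ s1 s2, KingStep (b1, b2) (s1, s2) → f s1 s2 = true := by
    intro s1 s2 hs
    by_contra h1
    exact hc ⟨s1, s2, hs, by simpa using h1⟩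
  unfold all8
  simp only [Bool.and_eq_true]
  refine ⟨?_, ?_, ?_, ?_, ?_, ?_, ?_, ?_⟩ <;> apply key <;> unfold KingStep <;>
    simp only [ne_eq, Prod.mk.injEq] <;> omega

/-- Checked positions with Black to move. -/
theorem okB_sound {B : Board} (hB : Big B) {g d k1 k2 r1 r2 b1 b2 : ℕ}
    (h1 : 1 ≤ b1) (h2 : 1 ≤ b2) (h3 : b1 ≤ 8) (h4 : b2 ≤ 10)
    (h : okB g d k1 k2 r1 r2 b1 b2 = true) :
    Checkmate B ⟨(k1, k2), (r1, r2), (b1, b2)⟩ ∨
      (¬ CanExit B ⟨(k1, k2), (r1, r2), (b1, b2)⟩ ∧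
        (∃ s, BlackMove B ⟨(k1, k2), (r1, r2), (b1, b2)⟩ s) ∧
        ∀ s, BlackMove B ⟨(k1, k2), (r1, r2), (b1, b2)⟩ s → s ≠ (r1, r2) ∧
          1 ≤ dep g s.1 s.2 ∧ dep g s.1 s.2 + 1 ≤ d) := by
  unfold okB at h
  rw [Bool.and_eq_true, Bool.or_eq_true, notB, hitB_iff] at h
  obtain ⟨h5, h6⟩ := h
  have hne := not_exit_of_big hB (k := (k1, k2)) (r := (r1, r2)) h3 h4
  by_cases hex : ∃ s, BlackMove B ⟨(k1, k2), (r1, r2), (b1, b2)⟩ s
  · right
    refine ⟨hne, hex, ?_⟩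
    rintro ⟨s1, s2⟩ hs
    have h7 := all8_elim h1 h2 h5 hs.1
    unfold okT at h7
    rw [illegal_of_not hs] at h7
    simp only [Bool.false_or, Bool.and_eq_true, notB, bleN, beqN] at h7
    refine ⟨?_, h7.2.1, h7.2.2⟩
    simp only [ne_eq, Prod.mk.injEq]
    exact h7.1
  · left
    have hno : ∀ s, ¬ BlackMove B ⟨(k1, k2), (r1, r2), (b1, b2)⟩ s := fun s hs => hex ⟨s, hs⟩
    refine ⟨?_, hne, hno⟩
    rcases h6 with h6 | h6
    · exact h6
    · obtain ⟨s1, s2, h7, h8⟩ := all8_false h1 h2 h6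
      exact absurd (move_of_legal hB h3 h4 h8 h7) (hno _)

theorem inR_iff {x y : ℕ} : inR x y = true ↔ 1 ≤ x ∧ x ≤ 9 ∧ 1 ≤ y ∧ y ≤ 11 := by
  simp only [inR, Bool.and_eq_true, bleN]

/-- Checked positions with White to move. -/
theorem okW_sound {B : Board} (hB : Big B) {T : List (List (ℕ × ℕ))}
    {d p t1 t2 k1 k2 r1 r2 b1 b2 : ℕ}
    (h1 : 1 ≤ b1) (h2 : 1 ≤ b2) (h3 : b1 ≤ 8) (h4 : b2 ≤ 10)
    (hk : inR k1 k2 = true) (hr : inR r1 r2 = true)
    (h : okW T d p t1 t2 k1 k2 r1 r2 b1 b2 = true) :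
    ∃ k1' k2' r1' r2', inR k1' k2' = true ∧ inR r1' r2' = true ∧
      WhiteMove B ⟨(k1, k2), (r1, r2), (b1, b2)⟩ ⟨(k1', k2'), (r1', r2'), (b1, b2)⟩ ∧
      okB (grp T k1' k2' r1' r2') d k1' k2' r1' r2' b1 b2 = true := by
  unfold okW at h
  rw [Bool.and_eq_true] at h
  obtain ⟨ht, h⟩ := h
  have ht' := inR_iff.1 ht
  have hmem : B.Mem (t1, t2) := mem_of_big hB ht'.1 ht'.2.2.1 ht'.2.1 ht'.2.2.2
  cases hp : Nat.beq p 0
  · rw [hp] at h
    simp only [cond_false, Bool.and_eq_true, notB, hitB_iff, beqN] at h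
    obtain ⟨h5, h6, h7, h8, h9⟩ := h
    refine ⟨k1, k2, t1, t2, hk, ht, ⟨rfl, Or.inr ⟨rfl, h5.1, hmem, ?_, ?_, h5.2, h6.2⟩⟩, h9⟩
    · simp only [ne_eq, Prod.mk.injEq]; exact h7
    · simp only [ne_eq, Prod.mk.injEq]; exact h8
  · rw [hp] at h
    simp only [cond_true, Bool.and_eq_true, notB, nearS_iff, beqN] at h
    obtain ⟨h5, h6, h7, h8, h9⟩ := h
    refine ⟨t1, t2, r1, r2, ht, hr, ⟨rfl, Or.inl ⟨rfl, ?_, hmem, ?_, ?_, ?_⟩⟩, h9⟩
    · refine ⟨?_, h5.1.1, h5.1.2, h5.2.1, h5.2.2⟩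
      simp only [ne_eq, Prod.mk.injEq]; exact h6
    · simp only [ne_eq, Prod.mk.injEq]; exact h7
    · simp only [ne_eq, Prod.mk.injEq]
      rintro ⟨rfl, rfl⟩
      apply h8
      omega
    · rintro ⟨_, h10, h11, h12, h13⟩
      simp only at h10 h11 h12 h13
      exact h8 ⟨⟨h10, h11⟩, h12, h13⟩

theorem okKing_elim {T : List (List (ℕ × ℕ))} {k : ℕ} (h : okKing T k = true) :
    ∀ p ∈ T.getD k [],
      okGrp T p.2 (k % 9 + 1) (k / 9 + 1) (p.1 % 9 + 1) (p.1 / 9 + 1) = true := by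
  unfold okKing at h
  generalize T.getD k [] = l at h
  induction l with
  | nil => intro p hp; simp at hp
  | cons a l ih =>
    simp only [Bool.and_eq_true] at h
    intro p hp
    rcases List.mem_cons.1 hp with h1 | h1
    · rw [h1]; exact h.1
    · exact ih h.2 p h1

theorem look_cases (l : List (ℕ × ℕ)) (r : ℕ) : look l r = 0 ∨ ∃ p ∈ l, p.1 = r ∧ p.2 = look l r := by
  induction l with
  | nil => left; rfl
  | cons a l ih =>
    have hl : look (a :: l) r = bif Nat.beq a.1 r then a.2 else look l r := rfl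
    rw [hl]
    cases ha : Nat.beq a.1 r
    · simp only [cond_false]
      rcases ih with h | ⟨p, h1, h2, h3⟩
      · exact Or.inl h
      · exact Or.inr ⟨p, List.mem_cons_of_mem _ h1, h2, h3⟩
    · right
      exact ⟨a, List.mem_cons_self, beqN.1 ha, rfl⟩

/-- All cells of a checked table are fine. -/
theorem cell_ok {T : List (List (ℕ × ℕ))} (hT : ∀ k < 99, okKing T k = true)
    {k1 k2 r1 r2 b1 b2 : ℕ} (hk : inR k1 k2 = true) (hr : inR r1 r2 = true)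
    (h1 : 1 ≤ b1) (h2 : 1 ≤ b2) (h3 : b1 ≤ 8) (h4 : b2 ≤ 10) :
    okCell T (field (grp T k1 k2 r1 r2) b1 b2) k1 k2 r1 r2 b1 b2 = true := by
  have hk' := inR_iff.1 hk
  have hr' := inR_iff.1 hr
  have hnk : num k1 k2 < 99 := by unfold num; omega
  have h5 := okKing_elim (hT _ hnk)
  unfold grp
  rcases look_cases (T.getD (num k1 k2) []) (num r1 r2) with h6 | ⟨p, h6, h7, h8⟩
  · rw [h6]
    unfold field okCell
    simp
  · have h9 := h5 p h6
    rw [h8, h7] at h9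
    have e1 : num k1 k2 % 9 + 1 = k1 := by unfold num; omega
    have e2 : num k1 k2 / 9 + 1 = k2 := by unfold num; omega
    have e3 : num r1 r2 % 9 + 1 = r1 := by unfold num; omega
    have e4 : num r1 r2 / 9 + 1 = r2 := by unfold num; omega
    rw [e1, e2, e3, e4] at h9
    have h10 := allLt_elim (allLt_elim h9 (b2 - 1) (by omega)) (b1 - 1) (by omega)
    rwa [show b1 - 1 + 1 = b1 by omega, show b2 - 1 + 1 = b2 by omega] at h10

/-- White wins from all positions of a checked table within the recorded number of moves. -/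
theorem table_sound {B : Board} (hB : Big B) {T : List (List (ℕ × ℕ))}
    (hT : ∀ k < 99, okKing T k = true) : ∀ (N : ℕ) {k1 k2 r1 r2 b1 b2 : ℕ},
    inR k1 k2 = true → inR r1 r2 = true → 1 ≤ b1 → 1 ≤ b2 →
    1 ≤ dep (grp T k1 k2 r1 r2) b1 b2 → dep (grp T k1 k2 r1 r2) b1 b2 ≤ N →
    WinIn B N ⟨(k1, k2), (r1, r2), (b1, b2)⟩ := by
  intro N
  induction N with
  | zero => intro k1 k2 r1 r2 b1 b2 _ _ _ _ h1 h2; omega
  | succ N ih =>
    intro k1 k2 r1 r2 b1 b2 hk hr h1 h2 h5 h6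
    have hb : b1 ≤ 8 ∧ b2 ≤ 10 := by
      by_contra hc
      have : (Nat.ble b1 8 && Nat.ble b2 10) = false := by
        rw [← Bool.not_eq_true, Bool.and_eq_true, bleN, bleN]
        exact hc
      unfold dep at h5
      rw [this] at h5
      simp at h5
    have hd : dep (grp T k1 k2 r1 r2) b1 b2 = field (grp T k1 k2 r1 r2) b1 b2 % 64 := by
      have : (Nat.ble b1 8 && Nat.ble b2 10) = true := by
        rw [Bool.and_eq_true, bleN, bleN]
        exact hb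
      unfold dep
      rw [this]
      rfl
    have hc := cell_ok hT hk hr h1 h2 hb.1 hb.2
    unfold okCell at hc
    rw [Bool.or_eq_true, beqN, ← hd] at hc
    rcases hc with hc | hc
    · omega
    · obtain ⟨k1', k2', r1', r2', hk', hr', hm, hq⟩ := okW_sound hB h1 h2 hb.1 hb.2 hk hr hc
      refine ⟨_, hm, ?_⟩
      rcases okB_sound hB h1 h2 hb.1 hb.2 hq with h7 | ⟨h7, h8, h9⟩
      · exact Or.inl h7
      · refine Or.inr ⟨h7, h8, ?_⟩
        rintro ⟨s1, s2⟩ hs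
        obtain ⟨h10, h11, h12⟩ := h9 _ hs
        refine ⟨h10, ?_⟩
        have hsm := hs.2.1
        have h13 : dep (grp T k1' k2' r1' r2') s1 s2 + 1 ≤ dep (grp T k1 k2 r1 r2) b1 b2 := h12
        exact ih hk' hr' hsm.1 hsm.2.1 h11 (by
          clear hd hc hs h11 h12
          omega)

end Pool.Agent.Helper62.KRK
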